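import Mathlib

/-!
# The combinatorial core (abstract form)

`P` : forcing conditions; `E` : types (sequences of conditions indexed by `V` modulo a filter `F`);
`pi e` : the limit (the part of a type which is constant), `val e γ` : the value of the type at `γ`;
`Dcd e γ i` : for almost all `δ`, `val e δ` forces that the pair `γ, δ` has colour `i`.
-/

namespace Pool.Agent.LibHC

open Filter

universe u v w

structure Sys (P : Type u) (E : Type v) (V : Type w) [PartialOrder P] [Preorder E] where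
  F : Filter V
  neBot : F.NeBot
  cc : CountableInterFilter F
  pi : E → P
  pi_mono : ∀ {e e' : E}, e ≤ e' → pi e ≤ pi e'
  val : E → V → P
  val_mono : ∀ {e e' : E}, e ≤ e' → ∀ᶠ γ in F, val e γ ≤ val e' γ
  compat : ∀ {e : E} {q : P}, q ≤ pi e → ∀ᶠ γ in F, ∃ r ≤ q, r ≤ val e γ
  meet : ∀ (e : E) (q : P), q ≤ pi e → ∃ w ≤ e, pi w = q
  exists_lim : ∀ f : ℕ → E, (∀ n, f (n+1) ≤ f n) →
    ∃ l, (∀ n, l ≤ f n) ∧ ∀ q, (∀ n, q ≤ pi (f n)) → q ≤ pi l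
  P_lim : ∀ f : ℕ → P, (∀ n, f (n+1) ≤ f n) → ∃ l, ∀ n, l ≤ f n
  Dcd : E → V → ℕ → Prop
  dcd_mono : ∀ {e e' : E} {γ : V} {i : ℕ}, e' ≤ e → Dcd e γ i → Dcd e' γ i
  dcd_exists : ∀ (e : E) (γ : V), ∃ e' ≤ e, ∃ i, Dcd e' γ i
  Fc : P → V → V → ℕ → Prop
  fc_mono : ∀ {p p' : P} {γ δ : V} {i : ℕ}, p' ≤ p → Fc p γ δ i → Fc p' γ δ i
  reflect : ∀ {e : E} {γ : V} {i : ℕ}, Dcd e γ i → ∀ᶠ δ in F, Fc (val e δ) γ δ i

namespace Sys

variable {P : Type u} {E : Type v} {V : Type w} [PartialOrder P] [Preorder E] (Y : Sys P E V)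

/-- the restriction of a type `e` to a condition `q ≤ pi e` -/
noncomputable def mt (e : E) (q : P) : E :=
  open Classical in if h : q ≤ Y.pi e then (Y.meet e q h).choose else e

theorem mt_le (e : E) (q : P) : Y.mt e q ≤ e := by
  unfold mt
  split_ifs with h
  · exact (Y.meet e q h).choose_spec.1
  · exact le_rfl

theorem pi_mt {e : E} {q : P} (h : q ≤ Y.pi e) : Y.pi (Y.mt e q) = q := by
  unfold mt
  rw [dif_pos h]
  exact (Y.meet e q h).choose_spec.2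

/-- Almost every `γ` does not allow common extensions both deciding colour `i`. -/
def Bad (i : ℕ) (t u₁ u₂ : E) : Prop :=
  ∀ᶠ γ in Y.F, ∀ u₁' ≤ u₁, ∀ u₂' ≤ u₂, Y.pi u₁' = Y.pi u₂' → Y.pi u₁' ≤ Y.val t γ →
    ¬ (Y.Dcd u₁' γ i ∧ Y.Dcd u₂' γ i)

theorem Bad.mono {Y : Sys P E V} {i : ℕ} {t u₁ u₂ t' u₁' u₂' : E} (h : Y.Bad i t u₁ u₂)
    (ht : t' ≤ t) (h₁ : u₁' ≤ u₁) (h₂ : u₂' ≤ u₂) : Y.Bad i t' u₁' u₂' := by
  unfold Bad at *
  filter_upwards [h, Y.val_mono ht] with γ hγ hv a ha b hb hab hle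
  exact hγ a (ha.trans h₁) b (hb.trans h₂) hab (hle.trans hv)

def Rel (i : ℕ) (t u : E) : Prop :=
  ∀ t' ≤ t, ∀ u₁ ≤ u, ∀ u₂ ≤ u, Y.pi t' = Y.pi u₁ → Y.pi t' = Y.pi u₂ → ¬ Y.Bad i t' u₁ u₂

theorem Rel.mono {Y : Sys P E V} {i : ℕ} {t u t' u' : E} (h : Y.Rel i t u)
    (ht : t' ≤ t) (hu : u' ≤ u) : Y.Rel i t' u' := by
  intro a ha b hb c hc
  exact h a (ha.trans ht) b (hb.trans hu) c (hc.trans hu)

/-- use of `Rel` -/
theorem Rel.use {Y : Sys P E V} {i : ℕ} {t u : E} (h : Y.Rel i t u) {t' u₁ u₂ : E}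
    (ht : t' ≤ t) (h₁ : u₁ ≤ u) (h₂ : u₂ ≤ u) (e₁ : Y.pi t' = Y.pi u₁) (e₂ : Y.pi t' = Y.pi u₂)
    {p : V → Prop} (hp : ∀ᶠ γ in Y.F, p γ) :
    ∃ γ, p γ ∧ ∃ u₁' ≤ u₁, ∃ u₂' ≤ u₂, Y.pi u₁' = Y.pi u₂' ∧ Y.pi u₁' ≤ Y.val t' γ ∧
      Y.Dcd u₁' γ i ∧ Y.Dcd u₂' γ i := by
  by_contra hcon
  refine h t' ht u₁ h₁ u₂ h₂ e₁ e₂ ?_
  unfold Bad
  filter_upwards [hp] with γ hγ a ha b hb hab hle hD
  exact hcon ⟨γ, hγ, a, ha, b, hb, hab, hle, hD.1, hD.2⟩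

/-- One level of the tree construction, for finitely many nodes. -/
theorem level (i : ℕ) (t₀ u₀ : E)
    (hno : ∀ t' ≤ t₀, ∀ u' ≤ u₀, Y.pi t' = Y.pi u' → ¬ Y.Rel i t' u')
    (t : E) (ht : t ≤ t₀) (u : List Bool → E) (L : Finset (List Bool))
    (hu : ∀ s ∈ L, u s ≤ u₀ ∧ Y.pi (u s) = Y.pi t) :
    ∃ t' ≤ t, ∃ u' : Bool → List Bool → E, ∀ s ∈ L,
      (∀ b, u' b s ≤ u s ∧ Y.pi (u' b s) = Y.pi t') ∧ Y.Bad i t' (u' true s) (u' false s) := by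
  classical
  induction L using Finset.induction_on with
  | empty => exact ⟨t, le_rfl, fun _ => u, by simp⟩
  | insert s₀ L hs₀ ih =>
    obtain ⟨t', ht', u', hu'⟩ := ih (fun s hs => hu s (Finset.mem_insert_of_mem hs))
    have h0 := hu s₀ (Finset.mem_insert_self _ _)
    have hle : Y.pi t' ≤ Y.pi (u s₀) := by rw [h0.2]; exact Y.pi_mono ht'
    have hw : Y.mt (u s₀) (Y.pi t') ≤ u s₀ := Y.mt_le _ _
    have hpw : Y.pi (Y.mt (u s₀) (Y.pi t')) = Y.pi t' := Y.pi_mt hle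
    have hn := hno t' (ht'.trans ht) _ (hw.trans h0.1) hpw.symm
    unfold Rel at hn
    push Not at hn
    obtain ⟨t'', ht'', u₁, hu₁, u₂, hu₂, e₁, e₂, hbad⟩ := hn
    refine ⟨t'', ht''.trans ht', fun b s => if s = s₀ then (if b then u₁ else u₂) else
      Y.mt (u' b s) (Y.pi t''), ?_⟩
    intro s hs
    by_cases hss : s = s₀
    · subst hss
      refine ⟨?_, ?_⟩
      · intro b
        cases b
        · simp only [if_true]
          exact ⟨hu₂.trans hw, e₂.symm⟩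
        · simp only [if_true]
          exact ⟨hu₁.trans hw, e₁.symm⟩
      · simpa using hbad
    · have hsL : s ∈ L := by
        rcases Finset.mem_insert.1 hs with h | h
        · exact absurd h hss
        · exact h
      obtain ⟨h1, h2⟩ := hu' s hsL
      simp only [hss, if_false]
      refine ⟨fun b => ⟨(Y.mt_le _ _).trans (h1 b).1, Y.pi_mt ?_⟩, ?_⟩
      · rw [(h1 b).2]; exact Y.pi_mono ht''
      · exact h2.mono ht'' (Y.mt_le _ _) (Y.mt_le _ _)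

/-- State of the tree construction at level `n`. -/
structure St (t₀ u₀ : E) (n : ℕ) where
  t : E
  u : List Bool → E
  ht : t ≤ t₀
  hu : ∀ s : List Bool, s.length = n → u s ≤ u₀ ∧ Y.pi (u s) = Y.pi t

theorem St.step (t₀ u₀ : E)
    (hno : ∀ i, ∀ t' ≤ t₀, ∀ u' ≤ u₀, Y.pi t' = Y.pi u' → ¬ Y.Rel i t' u') (n : ℕ)
    (x : Y.St t₀ u₀ n) :
    ∃ y : Y.St t₀ u₀ (n+1), y.t ≤ x.t ∧ (∀ s : List Bool, s.length = n →
      (∀ b, y.u (b :: s) ≤ x.u s) ∧ Y.Bad n y.t (y.u (true :: s)) (y.u (false :: s))) := by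
  classical
  have hfin : {s : List Bool | s.length = n}.Finite := List.finite_length_eq Bool n
  obtain ⟨t', ht', u', hu'⟩ := Y.level n t₀ u₀ (hno n) x.t x.ht x.u hfin.toFinset (by
    intro s hs
    exact x.hu s (by simpa using hs))
  refine ⟨⟨t', fun s => match s with
    | [] => x.u []
    | b :: s => u' b s, ht'.trans x.ht, ?_⟩, ht', ?_⟩
  · intro s hs
    match s with
    | [] => simp at hs
    | b :: s =>
      have hs' : s.length = n := by simpa using hs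
      have := (hu' s (by simpa using hs')).1 b
      exact ⟨this.1.trans (x.hu s hs').1, this.2⟩
  · intro s hs
    have := hu' s (by simpa using hs)
    exact ⟨fun b => (this.1 b).1, this.2⟩

/-- **Pair density lemma.** -/
theorem pair_density (t₀ u₀ : E) (h0 : Y.pi t₀ = Y.pi u₀) :
    ∃ i, ∃ t' ≤ t₀, ∃ u' ≤ u₀, Y.pi t' = Y.pi u' ∧ Y.Rel i t' u' := by
  classical
  by_contra hcon
  push Not at hcon
  have hno : ∀ i, ∀ t' ≤ t₀, ∀ u' ≤ u₀, Y.pi t' = Y.pi u' → ¬ Y.Rel i t' u' := hcon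
  have := Y.neBot
  have := Y.cc
  -- the tree
  let x₀ : Y.St t₀ u₀ 0 := ⟨t₀, fun _ => u₀, le_rfl, fun s _ => ⟨le_rfl, h0.symm⟩⟩
  let x : (n : ℕ) → Y.St t₀ u₀ n := fun n =>
    Nat.rec x₀ (fun n y => (St.step Y t₀ u₀ hno n y).choose) n
  have hx : ∀ n, (x (n+1)).t ≤ (x n).t ∧ (∀ s : List Bool, s.length = n →
      (∀ b, (x (n+1)).u (b :: s) ≤ (x n).u s) ∧
        Y.Bad n (x (n+1)).t ((x (n+1)).u (true :: s)) ((x (n+1)).u (false :: s))) :=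
    fun n => (St.step Y t₀ u₀ hno n (x n)).choose_spec
  obtain ⟨tω, htω, htω'⟩ := Y.exists_lim (fun n => (x n).t) (fun n => (hx n).1)
  -- choice of γ
  have hγ : ∀ᶠ γ in Y.F, (∃ r ≤ Y.pi tω, r ≤ Y.val tω γ) ∧
      (∀ n, Y.val tω γ ≤ Y.val (x n).t γ) ∧
      ∀ s : List Bool, ∀ u₁' ≤ (x (s.length+1)).u (true :: s),
        ∀ u₂' ≤ (x (s.length+1)).u (false :: s), Y.pi u₁' = Y.pi u₂' →
        Y.pi u₁' ≤ Y.val (x (s.length+1)).t γ → ¬ (Y.Dcd u₁' γ s.length ∧ Y.Dcd u₂' γ s.length) := by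
    refine (Y.compat le_rfl).and (Filter.Eventually.and ?_ ?_)
    · rw [eventually_countable_forall]
      intro n
      exact Y.val_mono (htω n)
    · rw [eventually_countable_forall]
      intro s
      exact ((hx s.length).2 s rfl).2
  obtain ⟨γ, ⟨r, hr, hrv⟩, hv, hbad⟩ := hγ.exists
  -- the branch
  have hπ : ∀ n (s : List Bool), s.length = n → ∀ q ≤ r, q ≤ Y.pi ((x n).u s) := by
    intro n s hs q hq
    rw [((x n).hu s hs).2]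
    exact (hq.trans hr).trans (Y.pi_mono (htω n))
  let BR : ℕ → Type u := fun n => {z : List Bool × P // z.1.length = n ∧ z.2 ≤ r}
  have hstep : ∀ n (z : BR n), ∃ z' : BR (n+1), (∃ b, z'.1.1 = b :: z.1.1) ∧ z'.1.2 ≤ z.1.2 ∧
      ∀ u' ≤ (x (n+1)).u z'.1.1, Y.pi u' ≤ z'.1.2 → ¬ Y.Dcd u' γ n := by
    intro n z
    obtain ⟨⟨s, q⟩, hs, hq⟩ := z
    simp only at hs hq
    by_cases hex : ∃ u' ≤ (x (n+1)).u (true :: s), Y.pi u' ≤ q ∧ Y.Dcd u' γ n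
    · obtain ⟨u', hu', hq', hD⟩ := hex
      refine ⟨⟨(false :: s, Y.pi u'), by simp [hs], hq'.trans hq⟩, ⟨false, rfl⟩, hq', ?_⟩
      intro u₂ hu₂ hle hD₂
      have h1 : Y.mt u' (Y.pi u₂) ≤ u' := Y.mt_le _ _
      have h2 : Y.pi (Y.mt u' (Y.pi u₂)) = Y.pi u₂ := Y.pi_mt hle
      have := hbad s
      rw [hs] at this
      refine this _ (h1.trans hu') u₂ hu₂ h2 ?_ ⟨Y.dcd_mono h1 hD, hD₂⟩
      rw [h2]
      exact hle.trans ((hq'.trans (hq.trans hrv)).trans (hv _))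
    · push Not at hex
      exact ⟨⟨(true :: s, q), by simp [hs], hq⟩, ⟨true, rfl⟩, le_rfl,
        fun u' hu' hle => hex u' hu' hle⟩
  let z₀ : BR 0 := ⟨([], r), rfl, le_rfl⟩
  let z : (n : ℕ) → BR n := fun n => Nat.rec z₀ (fun n y => (hstep n y).choose) n
  have hz : ∀ n, (∃ b, (z (n+1)).1.1 = b :: (z n).1.1) ∧ (z (n+1)).1.2 ≤ (z n).1.2 ∧
      ∀ u' ≤ (x (n+1)).u (z (n+1)).1.1, Y.pi u' ≤ (z (n+1)).1.2 → ¬ Y.Dcd u' γ n :=
    fun n => (hstep n (z n)).choose_spec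
  obtain ⟨l, hl, hl'⟩ := Y.exists_lim (fun n => (x n).u (z n).1.1) (by
    intro n
    obtain ⟨b, hb⟩ := (hz n).1
    show (x (n+1)).u (z (n+1)).1.1 ≤ _
    rw [hb]
    exact ((hx n).2 (z n).1.1 (z n).2.1).1 b)
  obtain ⟨qω, hqω⟩ := Y.P_lim (fun n => (z n).1.2) (fun n => (hz n).2.1)
  have hqr : qω ≤ r := (hqω 0).trans (z 0).2.2
  have hql : qω ≤ Y.pi l := hl' qω (fun n => hπ n _ (z n).2.1 qω hqr)
  obtain ⟨w, hw, hpw⟩ := Y.meet l qω hql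
  obtain ⟨e', he', i, hi⟩ := Y.dcd_exists w γ
  refine (hz i).2.2 e' ((he'.trans hw).trans (hl (i+1))) ?_ hi
  calc Y.pi e' ≤ Y.pi w := Y.pi_mono he'
    _ = qω := hpw
    _ ≤ _ := hqω (i+1)

def Acol (i : ℕ) (t : E) : Prop :=
  ∃ t' ≤ t, ∃ u' ≤ t, Y.pi t' = Y.pi u' ∧ Y.Rel i t' u'

theorem Acol.up {Y : Sys P E V} {i : ℕ} {t s : E} (h : Y.Acol i t) (hs : t ≤ s) : Y.Acol i s := by
  obtain ⟨t', ht', u', hu', h1, h2⟩ := h
  exact ⟨t', ht'.trans hs, u', hu'.trans hs, h1, h2⟩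

theorem exists_hereditary (t₀ : E) : ∃ i, ∃ t ≤ t₀, ∀ s ≤ t, Y.Acol i s := by
  by_contra hcon
  push Not at hcon
  choose! g hg hg' using hcon
  let f : ℕ → {t : E // t ≤ t₀} := fun n =>
    Nat.rec ⟨t₀, le_rfl⟩ (fun n t => ⟨g n t.1, (hg n t.1 t.2).trans t.2⟩) n
  have hf : ∀ n, (f (n+1)).1 = g n (f n).1 := fun n => rfl
  obtain ⟨l, hl, -⟩ := Y.exists_lim (fun n => (f n).1) (fun n => by
    show (f (n+1)).1 ≤ (f n).1
    rw [hf]; exact hg n _ (f n).2)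
  obtain ⟨i, t', ht', u', hu', h1, h2⟩ := Y.pair_density l l rfl
  have : Y.Acol i l := ⟨t', ht', u', hu', h1, h2⟩
  refine hg' i (f i).1 (f i).2 ?_
  rw [← hf]
  exact this.up (hl (i+1))

/-- **Lemma 2**: an infinite `i`-path of types over a single condition. -/
theorem exists_path (t₀ : E) : ∃ i, ∃ (T : ℕ → E) (p : P), (∀ n, T n ≤ t₀) ∧ (∀ n, Y.pi (T n) = p) ∧
    ∀ n, Y.Rel i (T n) (T (n+1)) := by
  obtain ⟨i, t, ht, hA⟩ := Y.exists_hereditary t₀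
  unfold Acol at hA
  choose! a ha b hb hab hrel using hA
  let B : ℕ → {s : E // s ≤ t} := fun n => Nat.rec ⟨t, le_rfl⟩ (fun _ s => ⟨b s.1, (hb s.1 s.2).trans s.2⟩) n
  have hB : ∀ n, (B (n+1)).1 = b (B n).1 := fun n => rfl
  obtain ⟨p, hp⟩ := Y.P_lim (fun n => Y.pi (B n).1) (fun n => by
    apply Y.pi_mono; rw [hB]; exact hb _ (B n).2)
  have hp' : ∀ n, p ≤ Y.pi (a (B n).1) := by
    intro n
    rw [hab _ (B n).2, ← hB]; exact hp (n+1)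
  refine ⟨i, fun n => Y.mt (a (B n).1) p, p, fun n => ?_, fun n => Y.pi_mt (hp' n), fun n => ?_⟩
  · exact ((Y.mt_le _ _).trans ((ha _ (B n).2).trans (B n).2)).trans ht
  · refine (hrel _ (B n).2).mono (Y.mt_le _ _) ((Y.mt_le _ _).trans ?_)
    rw [← hB]
    exact ha _ (B (n+1)).2

variable {Y}

/-- the vertex `a` is put in the homogeneous set at level `n` by `q`. -/
def At (Y : Sys P E V) (i : ℕ) (T : ℕ → E) (n : ℕ) (a : V) (q : P) : Prop :=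
  q ≤ Y.val (T n) a ∧ ∃ u ≤ T (n+1), q ≤ Y.pi u ∧ Y.Dcd u a i

theorem At.mono {i : ℕ} {T : ℕ → E} {n : ℕ} {a : V} {q r : P} (h : Y.At i T n a q) (hr : r ≤ q) :
    Y.At i T n a r := by
  obtain ⟨h1, u, hu, hq, hD⟩ := h
  exact ⟨hr.trans h1, u, hu, hr.trans hq, hD⟩

section
variable {i : ℕ} {T : ℕ → E} {p : P} (hT : ∀ n, Y.pi (T n) = p) (hR : ∀ n, Y.Rel i (T n) (T (n+1)))
include hT hR

/-- new vertices at level `n` : density -/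
theorem at_exists (n : ℕ) {q : P} (hq : q ≤ p) {s : V → Prop} (hs : ∀ᶠ γ in Y.F, s γ) :
    ∃ r ≤ q, ∃ γ, s γ ∧ Y.At i T n γ r := by
  have h1 : q ≤ Y.pi (T n) := by rw [hT]; exact hq
  have h2 : q ≤ Y.pi (T (n+1)) := by rw [hT]; exact hq
  obtain ⟨γ, ⟨hγ, hv⟩, u₁, hu₁, u₂, hu₂, he, hle, hD₁, hD₂⟩ := (hR n).use (Y.mt_le (T n) q)
    (Y.mt_le (T (n+1)) q) (Y.mt_le (T (n+1)) q) (by rw [Y.pi_mt h1, Y.pi_mt h2])
    (by rw [Y.pi_mt h1, Y.pi_mt h2]) (hs.and (Y.val_mono (Y.mt_le (T n) q)))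
  refine ⟨Y.pi u₁, ?_, γ, hγ, hle.trans hv, u₁, hu₁.trans (Y.mt_le _ _), le_rfl, hD₁⟩
  have := Y.pi_mono hu₁
  rwa [Y.pi_mt h2] at this

/-- climbing one level, from a type `u` deciding -/
theorem climb (n : ℕ) {u : E} (hu : u ≤ T (n+1)) {s : V → Prop} (hs : ∀ᶠ γ in Y.F, s γ)
    {A : Set V} (hA : ∀ᶠ δ in Y.F, ∀ a ∈ A, Y.Fc (Y.val u δ) a δ i) :
    ∃ r ≤ Y.pi u, ∃ δ, s δ ∧ Y.At i T (n+1) δ r ∧ ∀ a ∈ A, Y.Fc r a δ i := by
  have hup : Y.pi u ≤ Y.pi (T (n+2)) := by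
    rw [hT (n+2), ← hT (n+1)]; exact Y.pi_mono hu
  obtain ⟨δ, ⟨hδ, hv, hc⟩, u₁, hu₁, u₂, hu₂, he, hle, hD₁, hD₂⟩ := (hR (n+1)).use hu
    (Y.mt_le (T (n+2)) (Y.pi u)) (Y.mt_le (T (n+2)) (Y.pi u)) (by rw [Y.pi_mt hup])
    (by rw [Y.pi_mt hup]) (hs.and ((Y.val_mono hu).and hA))
  refine ⟨Y.pi u₁, ?_, δ, hδ, ⟨hle.trans hv, u₁, hu₁.trans (Y.mt_le _ _), le_rfl, hD₁⟩, ?_⟩
  · have := Y.pi_mono hu₁
    rwa [Y.pi_mt hup] at this
  · intro a ha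
    exact Y.fc_mono hle (hc a ha)

theorem next (n : ℕ) {a : V} {q : P} (ha : Y.At i T n a q) {s : V → Prop}
    (hs : ∀ᶠ γ in Y.F, s γ) :
    ∃ r ≤ q, ∃ δ, s δ ∧ Y.At i T (n+1) δ r ∧ Y.Fc r a δ i := by
  obtain ⟨h1, u, hu, hq, hD⟩ := ha
  obtain ⟨r, hr, δ, hδ, hAt, hF⟩ := climb hT hR n ((Y.mt_le u q).trans hu) hs (A := {a}) (by
    simpa using Y.reflect (Y.dcd_mono (Y.mt_le u q) hD))
  rw [Y.pi_mt hq] at hr
  exact ⟨r, hr, δ, hδ, hAt, hF a rfl⟩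

theorem join (n : ℕ) {a b : V} {q : P} (ha : Y.At i T n a q) (hb : Y.At i T n b q) {s : V → Prop}
    (hs : ∀ᶠ γ in Y.F, s γ) :
    ∃ r ≤ q, ∃ δ γ δ', s δ ∧ s γ ∧ s δ' ∧ Y.At i T (n+1) δ r ∧ Y.At i T n γ r ∧
      Y.At i T (n+1) δ' r ∧ Y.Fc r a δ i ∧ Y.Fc r γ δ i ∧ Y.Fc r γ δ' i ∧ Y.Fc r b δ' i := by
  obtain ⟨ha1, ua, hua, hqa, hDa⟩ := ha
  obtain ⟨hb1, ub, hub, hqb, hDb⟩ := hb
  have hqT : q ≤ Y.pi (T n) := by
    rw [hT n, ← hT (n+1)]; exact hqa.trans (Y.pi_mono hua)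
  obtain ⟨γ, ⟨hγ, hv⟩, u₁, hu₁, u₂, hu₂, he, hle, hD₁, hD₂⟩ := (hR n).use (Y.mt_le (T n) q)
    ((Y.mt_le ua q).trans hua) ((Y.mt_le ub q).trans hub) (by rw [Y.pi_mt hqT, Y.pi_mt hqa])
    (by rw [Y.pi_mt hqT, Y.pi_mt hqb]) (hs.and (Y.val_mono (Y.mt_le (T n) q)))
  have hr₁q : Y.pi u₁ ≤ q := by
    have := Y.pi_mono hu₁
    rwa [Y.pi_mt hqa] at this
  have hγAt : Y.At i T n γ (Y.pi u₁) :=
    ⟨hle.trans hv, u₁, (hu₁.trans (Y.mt_le _ _)).trans hua, le_rfl, hD₁⟩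
  obtain ⟨r₂, hr₂, δ, hδ, hδAt, hFδ⟩ := climb hT hR n ((hu₁.trans (Y.mt_le _ _)).trans hua) hs
    (A := {a, γ}) (by
      filter_upwards [Y.reflect (Y.dcd_mono (hu₁.trans (Y.mt_le _ _)) hDa), Y.reflect hD₁] with
        δ h1 h2 c hc
      rcases hc with rfl | hc
      · exact h1
      · rw [Set.mem_singleton_iff] at hc; subst hc; exact h2)
  have hr₂' : r₂ ≤ Y.pi u₂ := he ▸ hr₂
  obtain ⟨r₃, hr₃, δ', hδ', hδAt', hFδ'⟩ := climb hT hR n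
    ((Y.mt_le u₂ r₂).trans ((hu₂.trans (Y.mt_le _ _)).trans hub)) hs
    (A := {b, γ}) (by
      filter_upwards [Y.reflect (Y.dcd_mono ((Y.mt_le u₂ r₂).trans (hu₂.trans (Y.mt_le _ _))) hDb),
        Y.reflect (Y.dcd_mono (Y.mt_le u₂ r₂) hD₂)] with
        δ h1 h2 c hc
      rcases hc with rfl | hc
      · exact h1
      · rw [Set.mem_singleton_iff] at hc; subst hc; exact h2)
  rw [Y.pi_mt hr₂'] at hr₃
  refine ⟨r₃, hr₃.trans (hr₂.trans hr₁q), δ, γ, δ', hδ, hγ, hδ', hδAt.mono hr₃,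
    hγAt.mono (hr₃.trans hr₂), hδAt', Y.fc_mono hr₃ (hFδ a (by simp)),
    Y.fc_mono hr₃ (hFδ γ (by simp)), hFδ' γ (by simp), hFδ' b (by simp)⟩

/-- climbing `m` levels: a chain of vertices -/
theorem climb_many (m n : ℕ) {a : V} {q : P} (ha : Y.At i T n a q) {s : V → Prop}
    (hs : ∀ᶠ γ in Y.F, s γ) :
    ∃ r ≤ q, ∃ (l : List V) (e : V), Y.At i T (n+m) e r ∧
      (∀ x ∈ l, s x ∧ ∃ k, Y.At i T k x r) ∧
      List.IsChain (fun x y => Y.Fc r x y i) (a :: l) ∧ (a :: l).getLast? = some e := by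
  induction m generalizing n a q with
  | zero => exact ⟨q, le_rfl, [], a, ha, by simp, by simp, by simp⟩
  | succ m ih =>
    obtain ⟨r, hr, δ, hδ, hAt, hF⟩ := next hT hR n ha hs
    obtain ⟨r', hr', l, e, he, hl, hch, hlast⟩ := ih (n+1) hAt
    refine ⟨r', hr'.trans hr, δ :: l, e, ?_, ?_, ?_, ?_⟩
    · have : n + 1 + m = n + (m+1) := by ring
      rwa [this] at he
    · intro x hx
      rcases List.mem_cons.1 hx with rfl | hx
      · exact ⟨hδ, n+1, hAt.mono hr'⟩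
      · exact hl x hx
    · rw [List.isChain_cons_cons]
      exact ⟨Y.fc_mono hr' hF, hch⟩
    · rw [List.getLast?_cons_cons]
      exact hlast

end

end Sys

end Pool.Agent.LibHC
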