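import Pool.Agent.LibHC.Levy
import Pool.Agent.LibHC.Core

/-!
# Codes for types, and the system `Sys` for the Lévy collapse
-/

namespace Pool.Agent.LibHC

open Cardinal Filter Set

universe u

/-- Codes for `κ`-sequences of conditions. -/
inductive Code (P K : Type u) : Type u
  | base : Code P K
  | meet : Code P K → P → Code P K
  | dec : Code P K → K → Code P K
  | lim : (ℕ → Code P K) → Code P K

/-- labels (for counting codes) -/
inductive Lab (P K : Type u) : Type u
  | base : Lab P K
  | meet : P → Lab P K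
  | dec : K → Lab P K
  | lim : Lab P K

def Lab.ar {P K : Type u} : Lab P K → Type u
  | .base => PEmpty
  | .meet _ => PUnit
  | .dec _ => PUnit
  | .lim => ULift ℕ

def Code.toW {P K : Type u} : Code P K → WType (Lab.ar (P := P) (K := K))
  | .base => ⟨.base, fun x => PEmpty.elim x⟩
  | .meet e p => ⟨.meet p, fun _ => e.toW⟩
  | .dec e γ => ⟨.dec γ, fun _ => e.toW⟩
  | .lim f => ⟨.lim, fun n => (f n.down).toW⟩

theorem Code.toW_inj {P K : Type u} : ∀ a b : Code P K, a.toW = b.toW → a = b
  | .base, .base => fun _ => rfl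
  | .meet e p, .meet e' p' => fun h => by
    simp only [Code.toW, WType.mk.injEq, Lab.meet.injEq] at h
    obtain ⟨rfl, h⟩ := h
    have := congrFun (eq_of_heq h) PUnit.unit
    rw [toW_inj e e' this]
  | .dec e p, .dec e' p' => fun h => by
    simp only [Code.toW, WType.mk.injEq, Lab.dec.injEq] at h
    obtain ⟨rfl, h⟩ := h
    have := congrFun (eq_of_heq h) PUnit.unit
    rw [toW_inj e e' this]
  | .lim f, .lim f' => fun h => by
    simp only [Code.toW, WType.mk.injEq, true_and] at h
    congr 1
    funext n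
    exact toW_inj (f n) (f' n) (congrFun (eq_of_heq h) ⟨n⟩)
  | .base, .meet _ _ => fun h => by simp [Code.toW] at h
  | .base, .dec _ _ => fun h => by simp [Code.toW] at h
  | .base, .lim _ => fun h => by simp [Code.toW] at h
  | .meet _ _, .base => fun h => by simp [Code.toW] at h
  | .meet _ _, .dec _ _ => fun h => by simp [Code.toW] at h
  | .meet _ _, .lim _ => fun h => by simp [Code.toW] at h
  | .dec _ _, .base => fun h => by simp [Code.toW] at h
  | .dec _ _, .meet _ _ => fun h => by simp [Code.toW] at h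
  | .dec _ _, .lim _ => fun h => by simp [Code.toW] at h
  | .lim _, .base => fun h => by simp [Code.toW] at h
  | .lim _, .meet _ _ => fun h => by simp [Code.toW] at h
  | .lim _, .dec _ _ => fun h => by simp [Code.toW] at h

theorem mk_lab {P K : Type u} : #(Lab P K) ≤ 1 + #P + #K + 1 := by
  have : #(Lab P K) ≤ #(((PUnit.{u+1} ⊕ P) ⊕ K) ⊕ PUnit.{u+1}) := by
    refine mk_le_of_injective (f := fun l => match l with
      | .base => Sum.inl (Sum.inl (Sum.inl PUnit.unit))
      | .meet p => Sum.inl (Sum.inl (Sum.inr p))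
      | .dec γ => Sum.inl (Sum.inr γ)
      | .lim => Sum.inr PUnit.unit) ?_
    intro a b h
    cases a <;> cases b <;> simp_all
  simpa using this

theorem mk_code {κ : Cardinal.{u}} (hκ : ℵ₀ ≤ κ) (hp : κ ^ ℵ₀ ≤ κ) {P K : Type u} (hP : #P ≤ κ)
    (hK : #K ≤ κ) : #(Code P K) ≤ κ := by
  refine (mk_le_of_injective (f := Code.toW) (fun a b h => Code.toW_inj a b h)).trans ?_
  have h1 : #(Lab P K) ≤ κ := by
    refine mk_lab.trans ?_
    have h1 : (1 : Cardinal) ≤ κ := one_le_aleph0.trans hκ
    calc 1 + #P + #K + 1 ≤ κ + κ + κ + κ := by gcongr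
      _ = κ := by rw [add_eq_self hκ, add_eq_self hκ, add_eq_self hκ]
  refine WType.cardinalMk_le_of_le ?_
  have h2 : ∀ l : Lab P K, κ ^ #(Lab.ar l) ≤ κ := by
    intro l
    cases l with
    | base => simpa [Lab.ar] using one_le_aleph0.trans hκ
    | meet p => simp [Lab.ar]
    | dec p => simp [Lab.ar]
    | lim => simpa [Lab.ar] using hp
  calc (Cardinal.sum fun l : Lab P K => κ ^ #(Lab.ar l)) ≤ Cardinal.sum fun _ : Lab P K => κ :=
        sum_le_sum _ _ h2
    _ = #(Lab P K) * κ := by rw [sum_const']
    _ ≤ κ * κ := by gcongr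
    _ = κ := mul_eq_self hκ

theorem mk_levy {κ : Cardinal.{u}} (h : IsWeaklyCompact κ) {Ω : Type u} [Nonempty Ω] (hΩ : #Ω ≤ κ) :
    #(Lv κ.ord.ToType Ω) ≤ κ := by
  have hc : #((κ.ord.ToType × Ω) × κ.ord.ToType) = κ := by
    simp only [mk_prod, lift_id, mk_ord_toType]
    apply le_antisymm
    · calc κ * #Ω * κ ≤ κ * κ * κ := by gcongr
        _ = κ := by rw [mul_eq_self h.1.le, mul_eq_self h.1.le]
    · have : 1 ≤ #Ω := Cardinal.one_le_iff_ne_zero.2 (mk_ne_zero Ω)
      calc κ = κ * 1 * 1 := by simp
        _ ≤ κ * #Ω * κ := by gcongr; exact one_le_aleph0.trans h.1.le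
  have h1 := mk_subset_mk_lt_cof (α := (κ.ord.ToType × Ω) × κ.ord.ToType) (by
    rw [hc]; exact h.isStrongLimit.isStrongPrelimit)
  rw [hc, h.isRegular.cof_ord] at h1
  calc #(Lv κ.ord.ToType Ω) ≤ #{s : Set ((κ.ord.ToType × Ω) × κ.ord.ToType) // #s < κ} := by
        refine mk_le_of_injective (f := fun p => ⟨{z | p.f z.1 = some z.2}, ?_⟩) ?_
        · have h2 : {z : (κ.ord.ToType × Ω) × κ.ord.ToType | p.f z.1 = some z.2}.Countable := by
            refine Set.MapsTo.countable_of_injOn (f := Prod.fst) (t := {d | p.f d ≠ none})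
              ?_ ?_ p.supp
            · rintro ⟨d, x⟩ hd
              simp only [mem_ofPred_eq] at *
              rw [hd]; simp
            · rintro ⟨d, x⟩ hd ⟨d', x'⟩ hd' hdd
              simp only [mem_ofPred_eq] at *
              subst hdd
              rw [hd] at hd'
              rw [Option.some.inj hd']
          exact h2.le_aleph0.trans_lt h.1
        · intro p q hpq
          have hpq' := Subtype.mk.inj hpq
          ext d x
          have := Set.ext_iff.1 hpq' (d, x)
          exact this
    _ = κ := h1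

section ev

variable {K Ω : Type u} [LinearOrder K] (c : SetName (Lv K Ω) ((K × K) × ℕ)) (p₁ : Lv K Ω)

open Classical in
/-- An extension of `p` deciding the colour of the pair `γ, α` (if there is one). -/
noncomputable def decP (γ α : K) (p : Lv K Ω) : Lv K Ω :=
  if h : ∃ r ≤ p, ∃ i, fMem c ((γ, α), i) r then h.choose else p

theorem decP_le (γ α : K) (p : Lv K Ω) : decP c γ α p ≤ p := by
  unfold decP
  split_ifs with h
  · exact h.choose_spec.1
  · exact le_rfl

theorem decP_dec {γ α : K} {p : Lv K Ω} (h : ∃ r ≤ p, ∃ i, fMem c ((γ, α), i) r) :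
    ∃ i, fMem c ((γ, α), i) (decP c γ α p) := by
  unfold decP
  rw [dif_pos h]
  exact h.choose_spec.2

noncomputable def ev : Code (Lv K Ω) K → K → Lv K Ω
  | .base, _ => p₁
  | .meet e p, α => (ev e α).join p
  | .dec e γ, α => decP c γ α (ev e α)
  | .lim f, α => Lv.limP (fun n => ev (f n) α)

theorem ev_le (e : Code (Lv K Ω) K) (α : K) : ev c p₁ e α ≤ p₁ := by
  induction e with
  | base => exact le_rfl
  | meet e p ih => exact (Lv.join_le_left _ _).trans ih
  | dec e γ ih => exact (decP_le _ _ _ _).trans ih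
  | lim f ih => exact (Lv.limP_le_zero _).trans (ih 0)

end ev

theorem fMem_mono {P X : Type*} [Preorder P] {R : SetName P X} {x : X} {p q : P} (h : fMem R x p)
    (hq : q ≤ p) : fMem R x q := fun r hr => h r (hr.trans hq)

/-- The preorder of codes given by a filter. -/
@[reducible] def codePre {K Ω : Type u} [LinearOrder K] (c : SetName (Lv K Ω) ((K × K) × ℕ))
    (p₁ : Lv K Ω) (F : Filter K) : Preorder (Code (Lv K Ω) K) where
  le e e' := ∀ᶠ α in F, ev c p₁ e α ≤ ev c p₁ e' α
  le_refl e := Eventually.of_forall fun _ => le_rfl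
  le_trans e e' e'' h1 h2 := by
    filter_upwards [h1, h2] with α h1 h2
    exact h1.trans h2

/-- The system of types for the Lévy collapse and a name `c` of a colouring. -/
noncomputable def theSys {κ : Cardinal.{u}} (hκ : ℵ₁ < κ) {Ω : Type u}
    (c : SetName (Lv κ.ord.ToType Ω) ((κ.ord.ToType × κ.ord.ToType) × ℕ))
    (p₁ : Lv κ.ord.ToType Ω) (F : Filter κ.ord.ToType) [hne : F.NeBot]
    [hF : CardinalInterFilter F κ] (hcc : CountableInterFilter F)
    (hsing : ∀ a : κ.ord.ToType, ({a} : Set κ.ord.ToType)ᶜ ∈ F)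
    (hdec : ∀ e, Decd F (ev c p₁ e))
    (hdec' : ∀ e γ i, {α | fMem c ((γ, α), i) (ev c p₁ e α)} ∈ F ∨
      {α | fMem c ((γ, α), i) (ev c p₁ e α)}ᶜ ∈ F)
    (htot : ∀ γ α, γ ≠ α → ∀ q ≤ p₁, ∃ r ≤ q, ∃ i, fMem c ((γ, α), i) r) :
    @Sys (Lv κ.ord.ToType Ω) (Code (Lv κ.ord.ToType Ω) κ.ord.ToType) κ.ord.ToType _
      (codePre c p₁ F) :=
  letI := codePre c p₁ F
  { F := F
    neBot := hne
    cc := hcc
    pi := fun e => piP hκ F (ev c p₁ e)
    pi_mono := fun {e e'} h => piP_mono h
    val := ev c p₁
    val_mono := fun {e e'} h => h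
    compat := fun {e q} h => by
      filter_upwards [piP_compat (hdec e) hcc h] with α hα
      exact ⟨(ev c p₁ e α).join q, Lv.join_le_right hα, Lv.join_le_left _ _⟩
    meet := fun e q h => by
      have hcomp := piP_compat (hdec e) hcc h
      refine ⟨.meet e q, Eventually.of_forall fun α => Lv.join_le_left _ _, ?_⟩
      apply le_antisymm
      · intro d x hx
        rw [piP_some]
        filter_upwards [hcomp] with α hα
        exact Lv.join_le_right hα d x hx
      · intro d x hx
        rw [piP_some] at hx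
        rcases hq : q.f d with _ | y
        · have h1 : ∀ᶠ α in F, (ev c p₁ e α).f d = some x := by
            filter_upwards [hx] with α hα
            have : ((ev c p₁ e α).f d).or (q.f d) = some x := hα
            rw [hq] at this
            simpa using this
          have h2 := h d x (piP_some.2 h1)
          rw [hq] at h2; cases h2
        · obtain ⟨α, hα, hα'⟩ := (hx.and hcomp).exists
          have := Lv.join_le_right hα' d y hq
          have h3 : ((ev c p₁ e α).join q).f d = some x := hα
          rw [h3] at this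
          exact this.symm
    exists_lim := fun f hf => by
      have hf' : ∀ n, ∀ᶠ α in F, ev c p₁ (f (n+1)) α ≤ ev c p₁ (f n) α := hf
      have hf'' : ∀ᶠ α in F, ∀ n, ev c p₁ (f (n+1)) α ≤ ev c p₁ (f n) α :=
        eventually_countable_forall.2 hf'
      refine ⟨.lim f, fun n => ?_, fun q hq => ?_⟩
      · filter_upwards [hf''] with α hα
        exact Lv.limP_le (g := fun n => ev c p₁ (f n) α) hα n
      · intro d x hx
        rw [piP_some] at hx
        by_cases hex : ∃ n y, ∀ᶠ α in F, (ev c p₁ (f n) α).f d = some y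
        · obtain ⟨n, y, hy⟩ := hex
          have h1 := hq n d y (piP_some.2 hy)
          obtain ⟨α, hα, hα', hα''⟩ := (hx.and (hy.and hf'')).exists
          have h2 : (Lv.limP (fun n => ev c p₁ (f n) α)).f d = some y :=
            Lv.limP_le (g := fun n => ev c p₁ (f n) α) hα'' n d y hα'
          have h3 : (Lv.limP (fun n => ev c p₁ (f n) α)).f d = some x := hα
          rw [h2] at h3
          rw [h1, h3]
        · exfalso
          have h1 : ∀ᶠ α in F, ∀ n, (ev c p₁ (f n) α).f d = none := by
            refine eventually_countable_forall.2 fun n => ?_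
            rcases (hdec (f n)).cases d with h | ⟨y, hy⟩
            · exact h
            · exact absurd ⟨n, y, hy⟩ hex
          obtain ⟨α, hα, hα'⟩ := (hx.and h1).exists
          obtain ⟨n, hn⟩ := Lv.limP_some hα
          rw [hα' n] at hn
          cases hn
    P_lim := fun f hf => ⟨Lv.limP f, fun n => Lv.limP_le hf n⟩
    Dcd := fun e γ i => ∀ᶠ α in F, γ ≠ α ∧ fMem c ((γ, α), i) (ev c p₁ e α)
    dcd_mono := fun {e e' γ i} h h1 => by
      filter_upwards [h, h1] with α h h1
      exact ⟨h1.1, fMem_mono h1.2 h⟩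
    dcd_exists := fun e γ => by
      refine ⟨.dec e γ, Eventually.of_forall fun α => decP_le _ _ _ _, ?_⟩
      have h1 : ∀ᶠ α in F, γ ≠ α := by
        filter_upwards [hsing γ] with α hα
        exact fun h => hα h.symm
      have h2 : ∀ᶠ α in F, ∃ i, fMem c ((γ, α), i) (ev c p₁ (.dec e γ) α) := by
        filter_upwards [h1] with α hα
        exact decP_dec c (htot γ α hα _ (ev_le c p₁ e α))
      by_contra hcon
      have hcon := not_exists.1 hcon
      have h3 : ∀ᶠ α in F, ∀ i, ¬ fMem c ((γ, α), i) (ev c p₁ (.dec e γ) α) := by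
        refine eventually_countable_forall.2 fun i => ?_
        rcases hdec' (.dec e γ) γ i with h | h
        · exact absurd (h1.and h) (hcon i)
        · exact h
      obtain ⟨α, ⟨i, hα⟩, hα'⟩ := (h2.and h3).exists
      exact hα' i hα
    Fc := fun p γ α i => γ ≠ α ∧ fMem c ((γ, α), i) p
    fc_mono := fun {p p' γ δ i} h h1 => ⟨h1.1, fMem_mono h1.2 h⟩
    reflect := fun {e γ i} h => h }

end Pool.Agent.LibHC
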