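import Mathlib

/-!
# Forcing semantics for statements about names, and the highly connected partition relation

`P` is a forcing notion (a preorder; `q ≤ p` means that `q` is stronger).  A sentence `φ` of the
forcing language is represented by the predicate `p ↦ (p ⊩ φ)`, i.e. by a function `P → Prop`;
the logical connectives and quantifiers are interpreted by the usual recursive clauses of the
definition of the forcing relation.

* Quantifiers over *elements* of a ground model set `X` range over `X` itself.
* Quantifiers over *subsets* (in the extension) of a ground model set `X` range over the names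
  `R : X → P → Prop`, i.e. sets of pairs `(x̌, s)` with `x ∈ X`, `s ∈ P`. (Every subset in `V[G]`
  of a ground model set has such a name.)
-/

namespace Pool.Agent.LibHC

universe u v w

/-- Names for subsets of the ground model set `X` : sets of pairs `(x̌, s)`. -/
abbrev SetName (P : Type u) (X : Type v) := X → P → Prop

section Forcing

variable {P : Type u} [Preorder P]

/-- `p ⊩ x̌ ∈ R` : densely many `r ≤ p` lie below some `s` with `(x̌, s) ∈ R`. -/
def fMem {X : Type v} (R : SetName P X) (x : X) (p : P) : Prop :=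
  ∀ q ≤ p, ∃ r ≤ q, ∃ s, R x s ∧ r ≤ s

/-- `p ⊩ x̌ = y̌`, for ground model elements. -/
def fEq {X : Type v} (x y : X) (_ : P) : Prop := x = y

/-- `p ⊩ φ ∧ ψ` -/
def fAnd (φ ψ : P → Prop) (p : P) : Prop := φ p ∧ ψ p

/-- `p ⊩ ¬ φ` : no `q ≤ p` forces `φ`. -/
def fNot (φ : P → Prop) (p : P) : Prop := ∀ q ≤ p, ¬ φ q

/-- `p ⊩ φ → ψ` : every `q ≤ p` which forces `φ` forces `ψ`. -/
def fImp (φ ψ : P → Prop) (p : P) : Prop := ∀ q ≤ p, φ q → ψ q

/-- `p ⊩ ∀ x, φ x` -/
def fAll {I : Sort w} (φ : I → P → Prop) (p : P) : Prop := ∀ x, φ x p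

/-- `p ⊩ ∃ x, φ x` : densely many `r ≤ p` force some instance. -/
def fEx {I : Sort w} (φ : I → P → Prop) (p : P) : Prop := ∀ q ≤ p, ∃ r ≤ q, ∃ x, φ x r

/-- The canonical name of a ground model set `S ⊆ X`. -/
def check {X : Type v} (S : Set X) : SetName P X := fun x _ => x ∈ S

/-- `R ⊆ X × Y` is single valued, i.e. (the graph of) a partial function from `X` to `Y`. -/
def fFunctional {X : Type v} {Y : Type w} (R : SetName P (X × Y)) : P → Prop :=
  fAll fun x => fAll fun y => fAll fun y' =>
    fImp (fAnd (fMem R (x, y)) (fMem R (x, y'))) (fEq y y')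

/-- `|W| ≤ |X|` (for `W ⊆ Y`) : there is a partial function from `X` to `Y` whose range
contains `W`. -/
def fCardLe (X : Type v) {Y : Type w} (W : SetName P Y) : P → Prop :=
  fEx fun R : SetName P (X × Y) =>
    fAnd (fFunctional R) (fAll fun y => fImp (fMem W y) (fEx fun x => fMem R (x, y)))

/-- `Ω` has order type `ω₁` : proper initial segments are countable, `Ω` is uncountable. -/
def fIsOmegaOne (Ω : Type v) [LinearOrder Ω] : P → Prop :=
  fAnd (fAll fun ξ : Ω => fCardLe ℕ (check (Set.Iio ξ)))
    (fNot (fCardLe ℕ (check (Set.univ : Set Ω))))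

/-- `K` has order type `ω₂` (given that `Ω` has order type `ω₁`) : proper initial segments have
size at most `|Ω| = ℵ₁`, but `K` has not. -/
def fIsOmegaTwo (Ω : Type v) (K : Type w) [LinearOrder K] : P → Prop :=
  fAnd (fAll fun ξ : K => fCardLe Ω (check (Set.Iio ξ)))
    (fNot (fCardLe Ω (check (Set.univ : Set K))))

/-- `c ⊆ (K × K) × ℕ` is (the graph of) a colouring `c : [K]² → ω`, as a symmetric function of two
different arguments. -/
def fColoring {K : Type v} (c : SetName P ((K × K) × ℕ)) : P → Prop :=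
  fAnd (fFunctional c)
    (fAnd (fAll fun γ : K => fAll fun δ : K => fImp (fNot (fEq γ δ))
        (fEx fun i : ℕ => fMem c ((γ, δ), i)))
      (fAll fun γ : K => fAll fun δ : K => fAll fun i : ℕ =>
        fImp (fMem c ((γ, δ), i)) (fMem c ((δ, γ), i))))

/-- `fWalk c i U a l b` : the finite sequence `a, l₀, l₁, …` is a walk from `a` to `b` in the graph
whose edges are the pairs of colour `i`, and all the `lⱼ` (the last of which is `b`) satisfy
`U`. -/
def fWalk {K : Type v} (c : SetName P ((K × K) × ℕ)) (i : ℕ) (U : K → P → Prop) :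
    K → List K → K → P → Prop
  | a, [], b => fEq a b
  | a, x :: l, b => fAnd (fAnd (U x) (fAnd (fNot (fEq a x)) (fMem c ((a, x), i))))
      (fWalk c i U x l b)

/-- The graph `(X, c⁻¹(i) ∩ [X]²)`, `|X| = ℵ₂`, is highly connected : for all `W ⊆ X` of size
less than `ℵ₂`, i.e. of size at most `ℵ₁ = |Ω|`, any two vertices in `X ∖ W` are joined by a walk
inside `X ∖ W`. -/
def fHighlyConnected (Ω : Type v) {K : Type w} (c : SetName P ((K × K) × ℕ)) (i : ℕ)
    (X : SetName P K) : P → Prop :=
  fAll fun W : SetName P K =>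
    fImp (fAnd (fAll fun x : K => fImp (fMem W x) (fMem X x)) (fCardLe Ω W))
      (fAll fun a : K => fAll fun b : K =>
        fImp (fAnd (fAnd (fMem X a) (fNot (fMem W a))) (fAnd (fMem X b) (fNot (fMem W b))))
          (fEx fun l : List K =>
            fWalk c i (fun x => fAnd (fMem X x) (fNot (fMem W x))) a l b))

/-- `ℵ₂ →_hc (ℵ₂)²_ω`, where `Ω` and `K` are well-orders of type `ω₁`, `ω₂` : for every colouring
`c : [K]² → ω` there are `X ⊆ K` of size `ℵ₂` and `i < ω` such that the graph
`(X, c⁻¹(i) ∩ [X]²)` is highly connected. -/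
def fHC (Ω : Type v) (K : Type w) : P → Prop :=
  fAll fun c : SetName P ((K × K) × ℕ) => fImp (fColoring c)
    (fEx fun X : SetName P K => fEx fun i : ℕ =>
      fAnd (fNot (fCardLe Ω X)) (fHighlyConnected Ω c i X))

end Forcing

/-- The forcing notion `P` forces `ℵ₂ →_hc (ℵ₂)²_ω` : there are (ground model) well-orders `Ω` and
`K` such that every condition forces that `Ω` has order type `ω₁`, that `K` has order type `ω₂` and
that the partition relation holds for colourings of `[K]²`. -/
def ForcesHC (P : Type u) [Preorder P] : Prop :=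
  ∃ (Ω K : Type u) (_ : LinearOrder Ω) (_ : WellFoundedLT Ω) (_ : LinearOrder K)
    (_ : WellFoundedLT K), ∀ p : P, fIsOmegaOne Ω p ∧ fIsOmegaTwo Ω K p ∧ fHC Ω K p

open Cardinal in
/-- `κ` is weakly compact : `κ` is uncountable and `κ → (κ)²₂`. -/
def IsWeaklyCompact (κ : Cardinal.{u}) : Prop :=
  ℵ₀ < κ ∧ ∀ (A : Type u), #A = κ → ∀ c : A → A → Bool, (∀ a b, c a b = c b a) →
    ∃ (H : Set A) (i : Bool), #H = κ ∧ ∀ a ∈ H, ∀ b ∈ H, a ≠ b → c a b = i

end Pool.Agent.LibHC
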