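import Pool.Agent.LibHC.Codes

/-!
# The Lévy collapse of a weakly compact cardinal forces `ℵ₂ →_hc (ℵ₂)²_ω`
-/

namespace Pool.Agent.LibHC

open Cardinal Filter Set

universe u v w

section general

variable {P : Type u} [Preorder P]

theorem fMem_check {X : Type v} {S : Set X} {x : X} {p : P} : fMem (check S) x p ↔ x ∈ S := by
  constructor
  · intro h
    obtain ⟨r, -, s, hs, -⟩ := h p le_rfl
    exact hs
  · intro h q _
    exact ⟨q, le_rfl, q, h, le_rfl⟩

theorem fImp_mono {φ ψ : P → Prop} {p q : P} (h : fImp φ ψ p) (hq : q ≤ p) : fImp φ ψ q :=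
  fun r hr => h r (hr.trans hq)

theorem fNot_mono {φ : P → Prop} {p q : P} (h : fNot φ p) (hq : q ≤ p) : fNot φ q :=
  fun r hr => h r (hr.trans hq)

theorem fEx_mono {I : Sort w} {φ : I → P → Prop} {p q : P} (h : fEx φ p) (hq : q ≤ p) :
    fEx φ q := fun r hr => h r (hr.trans hq)

theorem fFunctional_mono {X : Type v} {Y : Type w} {R : SetName P (X × Y)} {p q : P}
    (h : fFunctional R p) (hq : q ≤ p) : fFunctional R q :=
  fun x y y' => fImp_mono (h x y y') hq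

theorem fColoring_mono {K : Type v} {c : SetName P ((K × K) × ℕ)} {p q : P}
    (h : fColoring c p) (hq : q ≤ p) : fColoring c q :=
  ⟨fFunctional_mono h.1 hq, fun γ δ => fImp_mono (h.2.1 γ δ) hq,
    fun γ δ i => fImp_mono (h.2.2 γ δ i) hq⟩

/-- Countable ground model sets are countable in the extension. -/
theorem cardLe_countable {Ω : Type v} {S : Set Ω} (hS : S.Countable) (p : P) :
    fCardLe ℕ (check S) p := by
  obtain ⟨f, hf⟩ := Set.countable_iff_exists_injOn.1 hS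
  intro q _
  refine ⟨q, le_rfl, check {z : ℕ × Ω | z.2 ∈ S ∧ f z.2 = z.1}, ?_, ?_⟩
  · rintro n y y' r - ⟨h1, h2⟩
    rw [fMem_check] at h1 h2
    exact hf h1.1 h2.1 (h1.2.trans h2.2.symm)
  · intro y r _ hy s _
    rw [fMem_check] at hy
    exact ⟨s, le_rfl, f y, fMem_check.2 ⟨hy, rfl⟩⟩

/-- A `σ`-closed forcing does not collapse `ω₁`. -/
theorem not_cardLe_nat (hP : ∀ f : ℕ → P, (∀ n, f (n+1) ≤ f n) → ∃ l, ∀ n, l ≤ f n)
    {Ω : Type v} (hΩ : ¬ Countable Ω) (p : P) :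
    fNot (fCardLe ℕ (check (Set.univ : Set Ω))) p := by
  intro q _ hC
  obtain ⟨r, hr, R, hfun, hcov⟩ := hC q le_rfl
  have hstep : ∀ (n : ℕ) (s : P), ∃ s' ≤ s, (∃ y, fMem R (n, y) s') ∨
      (∀ t ≤ s', ∀ y, ¬ fMem R (n, y) t) := by
    intro n s
    by_cases h : ∃ t ≤ s, ∃ y, fMem R (n, y) t
    · obtain ⟨t, ht, y, hy⟩ := h
      exact ⟨t, ht, Or.inl ⟨y, hy⟩⟩
    · push Not at h
      exact ⟨s, le_rfl, Or.inr fun t ht y => h t ht y⟩
  choose nx hnx hnx' using hstep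
  let g : ℕ → P := fun n => Nat.rec r (fun n s => nx n s) n
  have hg : ∀ n, g (n+1) = nx n (g n) := fun n => rfl
  obtain ⟨l, hl⟩ := hP g (fun n => by rw [hg]; exact hnx n _)
  have hgr : ∀ n, g n ≤ r := by
    intro n
    induction n with
    | zero => exact le_rfl
    | succ n ih => rw [hg]; exact (hnx n _).trans ih
  have hcount : (⋃ n, {y : Ω | fMem R (n, y) (g (n+1))}).Countable := by
    refine Set.countable_iUnion fun n => Set.Subsingleton.countable ?_
    intro y hy y' hy'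
    exact hfun n y y' _ (hgr (n+1)) ⟨hy, hy'⟩
  obtain ⟨y₀, hy₀⟩ : ∃ y₀, y₀ ∉ (⋃ n, {y : Ω | fMem R (n, y) (g (n+1))}) := by
    by_contra hcon
    push Not at hcon
    apply hΩ
    rw [← Set.countable_univ_iff]
    exact hcount.mono (fun y _ => hcon y)
  obtain ⟨t, ht, n, hn⟩ := hcov y₀ l ((hl 0).trans le_rfl) (fMem_check.2 (mem_univ _)) l le_rfl
  have htn : t ≤ g (n+1) := ht.trans (hl (n+1))
  rcases hnx' n (g n) with ⟨y, hy⟩ | h
  · have hy' : fMem R (n, y) (g (n+1)) := hy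
    have : y = y₀ := hfun n y y₀ t (htn.trans (hgr (n+1))) ⟨fMem_mono hy' htn, hn⟩
    exact hy₀ (mem_iUnion.2 ⟨n, this ▸ hy'⟩)
  · exact h t htn y₀ hn

end general

section levy

variable {κ : Cardinal.{u}} {Ω : Type u}

/-- In the extension `|ξ| ≤ ℵ₁` for all `ξ < κ`. -/
theorem levy_collapses {K : Type u} [LinearOrder K] (hΩ : ¬ Countable Ω) (ξ : K) (p : Lv K Ω) :
    fCardLe Ω (check (Set.Iio ξ)) p := by
  classical
  intro q _
  have hR : ∀ {α : Ω} {x : K} {r : Lv K Ω},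
      fMem (P := Lv K Ω) (fun (z : Ω × K) s => s.f (ξ, z.1) = some z.2) (α, x) r →
      ∀ t ≤ r, ∃ t' ≤ t, t'.f (ξ, α) = some x := by
    intro α x r h t ht
    obtain ⟨t', ht', s, hs, hts⟩ := h t ht
    exact ⟨t', ht', hts _ _ hs⟩
  refine ⟨q, le_rfl, fun z s => s.f (ξ, z.1) = some z.2, ?_, ?_⟩
  · rintro α x x' r - ⟨h1, h2⟩
    obtain ⟨t, ht, h3⟩ := hR h1 r le_rfl
    obtain ⟨t', ht', h4⟩ := hR h2 t ht
    have h5 := ht' _ _ h3
    rw [h5] at h4
    exact Option.some.inj h4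
  · intro x r _ hx s hs
    rw [fMem_check] at hx
    -- a new coordinate
    have hcount : {α : Ω | s.f (ξ, α) ≠ none}.Countable := by
      refine Set.MapsTo.countable_of_injOn (f := fun α => (ξ, α)) (t := {d | s.f d ≠ none})
        (fun α hα => hα) ?_ s.supp
      intro α _ β _ h
      simpa using h
    obtain ⟨α, hα⟩ : ∃ α, α ∉ {α : Ω | s.f (ξ, α) ≠ none} := by
      by_contra hcon
      push Not at hcon
      apply hΩ
      rw [← Set.countable_univ_iff]
      exact hcount.mono (fun y _ => hcon y)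
    simp only [mem_ofPred_eq, not_not] at hα
    let t : Lv K Ω :=
      { f := Function.update s.f (ξ, α) (some x)
        supp := by
          refine (s.supp.insert (ξ, α)).mono ?_
          intro d hd
          by_cases h : d = (ξ, α)
          · exact Or.inl h
          · right
            simp only [mem_ofPred_eq] at hd ⊢
            rwa [Function.update_of_ne h] at hd
        lt := by
          intro d y h
          by_cases hd : d = (ξ, α)
          · subst hd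
            rw [Function.update_self] at h
            rw [← Option.some.inj h]; exact hx
          · rw [Function.update_of_ne hd] at h
            exact s.lt d y h }
    refine ⟨t, ?_, α, ?_⟩
    · intro d y hd
      have hne : d ≠ (ξ, α) := by
        rintro rfl; rw [hα] at hd; cases hd
      show Function.update s.f (ξ, α) (some x) d = _
      rw [Function.update_of_ne hne]; exact hd
    · intro t' ht'
      refine ⟨t', le_rfl, t', ?_, le_rfl⟩
      exact ht' (ξ, α) x (Function.update_self _ _ _)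

/-- The range of a function from `Ω` to `κ` in the extension is covered by a small ground model
set. -/
theorem bounding (h : IsWeaklyCompact κ) (hΩ : #Ω < κ) {q : Lv κ.ord.ToType Ω}
    {R : SetName (Lv κ.ord.ToType Ω) (Ω × κ.ord.ToType)} (hR : fFunctional R q) :
    ∃ S : Set κ.ord.ToType, #S < κ ∧ ∀ r ≤ q, ∀ α x, fMem R (α, x) r → x ∈ S := by
  refine ⟨⋃ α, {x | ∃ r ≤ q, fMem R (α, x) r}, ?_, fun r hr α x hx => mem_iUnion.2 ⟨α, r, hr, hx⟩⟩
  rw [card_iUnion_lt_iff_forall_of_isRegular h.isRegular hΩ]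
  intro α
  by_contra hcon
  rw [_root_.not_lt] at hcon
  have h1 : #(κ.ord.ToType) ≤ #{x | ∃ r ≤ q, fMem R (α, x) r} := by simpa using hcon
  obtain ⟨j⟩ := h1
  choose r hr hr' using fun a => (j a).2
  obtain ⟨a, b, hab, hcomp⟩ := levy_cc h hΩ.le r
  have h2 := Lv.join_le_left (r a) (r b)
  have h3 := Lv.join_le_right hcomp
  have h4 := hR α (j a).1 (j b).1 _ (h2.trans (hr a)) ⟨fMem_mono (hr' a) h2, fMem_mono (hr' b) h3⟩
  exact hab (j.injective (Subtype.ext h4))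

/-- In the extension `κ` is not the image of `ω₁`. -/
theorem levy_preserves (h : IsWeaklyCompact κ) (hΩ : #Ω < κ) (p : Lv κ.ord.ToType Ω) :
    fNot (fCardLe Ω (check (Set.univ : Set κ.ord.ToType))) p := by
  intro q _ hC
  obtain ⟨r, hr, R, hfun, hcov⟩ := hC q le_rfl
  obtain ⟨S, hS, hS'⟩ := bounding h hΩ hfun
  obtain ⟨x, hx⟩ : ∃ x, x ∉ S := by
    by_contra hcon
    push Not at hcon
    have : S = Set.univ := eq_univ_of_forall hcon
    rw [this, mk_univ, mk_ord_toType] at hS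
    exact lt_irrefl _ hS
  obtain ⟨t, ht, α, hα⟩ := hcov x r le_rfl (fMem_check.2 (mem_univ _)) r le_rfl
  exact hx (hS' t ht α x hα)

end levy

section walk

variable {P : Type u} [PartialOrder P] {K : Type v} {c : SetName P ((K × K) × ℕ)} {i : ℕ}
  {U : K → P → Prop}

/-- The (symmetric) edge relation decided by `r`. -/
def Edge (c : SetName P ((K × K) × ℕ)) (i : ℕ) (U : K → P → Prop) (r : P) (x y : K) : Prop :=
  U x r ∧ U y r ∧ x ≠ y ∧ fMem c ((x, y), i) r

theorem walk_of_reach {r : P} {a b : K} (h : Relation.ReflTransGen (Edge c i U r) a b) :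
    ∃ l : List K, fWalk c i U a l b r := by
  induction h using Relation.ReflTransGen.head_induction_on with
  | refl => exact ⟨[], rfl⟩
  | head hab _ ih =>
    obtain ⟨l, hl⟩ := ih
    exact ⟨_ :: l, ⟨hab.2.1, fun q _ h => hab.2.2.1 h, hab.2.2.2⟩, hl⟩

theorem Edge.mono {r r' : P} (hU : ∀ x, ∀ q q' : P, q' ≤ q → U x q → U x q') (hr : r' ≤ r) {x y : K}
    (h : Edge c i U r x y) : Edge c i U r' x y :=
  ⟨hU x _ _ hr h.1, hU y _ _ hr h.2.1, h.2.2.1, fMem_mono h.2.2.2 hr⟩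

end walk

/-- The main lemma: below every condition forcing that `c` is a colouring there is a homogeneous
highly connected set. -/
theorem main_hc {κ : Cardinal.{u}} (h : IsWeaklyCompact κ) {Ω : Type u} [Nonempty Ω] (hΩ : #Ω < κ)
    (c : SetName (Lv κ.ord.ToType Ω) ((κ.ord.ToType × κ.ord.ToType) × ℕ))
    (p₁ : Lv κ.ord.ToType Ω) (hc : fColoring c p₁) :
    ∃ p ≤ p₁, ∃ (X : SetName (Lv κ.ord.ToType Ω) κ.ord.ToType) (i : ℕ),
      fNot (fCardLe Ω X) p ∧ fHighlyConnected Ω c i X p := by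
  -- the filter
  obtain ⟨F, hne, hF, hsm, hdec⟩ := exists_filter h
    (I := (Code (Lv κ.ord.ToType Ω) κ.ord.ToType × (κ.ord.ToType × Ω) × κ.ord.ToType) ⊕
      (Code (Lv κ.ord.ToType Ω) κ.ord.ToType × κ.ord.ToType × ULift.{u} ℕ)) (by
    have hC : #(Code (Lv κ.ord.ToType Ω) κ.ord.ToType) ≤ κ :=
      mk_code h.1.le h.power_aleph0 (mk_levy h hΩ.le) (by simp)
    have hΩ' := hΩ.le
    have hκ := h.1.le
    simp only [mk_sum, mk_prod, lift_id, mk_ord_toType, mk_uLift, mk_nat, lift_aleph0]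
    calc #(Code (Lv κ.ord.ToType Ω) κ.ord.ToType) * (κ * #Ω * κ) +
          #(Code (Lv κ.ord.ToType Ω) κ.ord.ToType) * (κ * ℵ₀) ≤
          κ * (κ * κ * κ) + κ * (κ * κ) := by gcongr
      _ = κ := by simp only [mul_eq_self hκ, add_eq_self hκ])
    (fun z => match z with
      | .inl (e, d, x) => {α | (ev c p₁ e α).f d = some x}
      | .inr (e, γ, i) => {α | fMem c ((γ, α), i.down) (ev c p₁ e α)})
  have hcc : CountableInterFilter F := CardinalInterFilter.toCountableInterFilter F h.1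
  let Y := theSys h.aleph_one_lt c p₁ F hcc
    (fun a => hsm _ (by rw [mk_singleton]; exact one_lt_aleph0.trans h.1))
    (fun e d x => hdec (.inl (e, d, x))) (fun e γ i => hdec (.inr (e, γ, ⟨i⟩)))
    (fun γ α hne q hq => by
      obtain ⟨r, hr, i, hi⟩ := hc.2.1 γ α p₁ le_rfl (fun q _ h => hne h) q hq
      exact ⟨r, hr, i, hi⟩)
  let _ := codePre c p₁ F
  have hYF : Y.F = F := rfl
  obtain ⟨i, T, p, hT0, hT, hR⟩ := Y.exists_path (.base)
  have hpp₁ : p ≤ p₁ := by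
    rw [← hT 0]
    have h1 : Y.pi (.base) ≤ p₁ := by
      intro d x hx
      show (piP h.aleph_one_lt F (ev c p₁ .base)).f d = some x
      rw [piP_some]
      exact Eventually.of_forall fun _ => hx
    exact (Y.pi_mono (hT0 0)).trans h1
  have hfc : ∀ {r : Lv κ.ord.ToType Ω} {a b : κ.ord.ToType}, Y.Fc r a b i →
      a ≠ b ∧ fMem c ((a, b), i) r := fun h => h
  let X : SetName (Lv κ.ord.ToType Ω) κ.ord.ToType := fun a q => ∃ n, Y.At i T n a q
  have hXat : ∀ {n a r}, Y.At i T n a r → fMem X a r := by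
    intro n a r hA q hq
    exact ⟨q, le_rfl, q, ⟨n, hA.mono hq⟩, le_rfl⟩
  have hXat' : ∀ {a r}, fMem X a r → ∀ q ≤ r, ∃ r' ≤ q, ∃ n, Y.At i T n a r' := by
    intro a r hA q hq
    obtain ⟨r', hr', s, ⟨n, hs⟩, hrs⟩ := hA q hq
    exact ⟨r', hr', n, hs.mono hrs⟩
  refine ⟨p, hpp₁, X, i, ?_, ?_⟩
  · -- X is not small
    intro q hq hC
    obtain ⟨r, hr, R, hfun, hcov⟩ := hC q le_rfl
    obtain ⟨S, hS, hS'⟩ := bounding h hΩ hfun
    obtain ⟨r', hr', γ, hγ, hAt⟩ := Y.at_exists hT hR 0 (hr.trans hq) (s := fun γ => γ ∉ S) (hsm S hS)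
    obtain ⟨t, ht, α, hα⟩ := hcov γ r' hr' (hXat hAt) r' le_rfl
    exact hγ (hS' t (ht.trans hr') α γ hα)
  · -- highly connected
    intro W q hq hW a b q' hq' hab q'' hq''
    obtain ⟨hWX, hWs⟩ := hW
    obtain ⟨⟨haX, haW⟩, ⟨hbX, hbW⟩⟩ := hab
    obtain ⟨q₃, hq₃, R, hfun, hcov⟩ := hWs q'' (hq''.trans hq')
    obtain ⟨S, hS, hS'⟩ := bounding h hΩ hfun
    have hs : ∀ᶠ γ in Y.F, γ ∉ S := hsm S hS
    let U : κ.ord.ToType → Lv κ.ord.ToType Ω → Prop := fun x => fAnd (fMem X x) (fNot (fMem W x))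
    have hUm : ∀ x, ∀ q q' : Lv κ.ord.ToType Ω, q' ≤ q → U x q → U x q' :=
      fun x q q' hq h => ⟨fMem_mono h.1 hq, fNot_mono h.2 hq⟩
    have hUs : ∀ {x n r}, r ≤ q₃ → x ∉ S → Y.At i T n x r → U x r := by
      intro x n r hr hx hA
      refine ⟨hXat hA, ?_⟩
      intro r' hr' hxW
      obtain ⟨t, ht, α, hα⟩ := hcov x r' (hr'.trans hr) hxW r' le_rfl
      exact hx (hS' t (ht.trans (hr'.trans hr)) α x hα)
    have hEm : ∀ {r r' : Lv κ.ord.ToType Ω}, r' ≤ r → ∀ {x y},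
        Relation.ReflTransGen (Edge c i U r) x y → Relation.ReflTransGen (Edge c i U r') x y := by
      intro r r' hr x y h
      exact Relation.ReflTransGen.mono (fun _ _ h => h.mono hUm hr) _ _ h
    have hsymm : ∀ {r : Lv κ.ord.ToType Ω}, r ≤ q₃ → ∀ x y, Edge c i U r x y →
        Edge c i U r y x := by
      intro r hr x y hE
      refine ⟨hE.2.1, hE.1, hE.2.2.1.symm, ?_⟩
      exact hc.2.2 x y i r ((hr.trans hq₃).trans (((hq''.trans hq').trans hq).trans hpp₁)) hE.2.2.2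
    have hsymm' : ∀ {r : Lv κ.ord.ToType Ω}, r ≤ q₃ → ∀ {x y},
        Relation.ReflTransGen (Edge c i U r) x y → Relation.ReflTransGen (Edge c i U r) y x := by
      intro r hr x y h
      induction h with
      | refl => exact .refl
      | tail _ hE ih => exact Relation.ReflTransGen.head (hsymm hr _ _ hE) ih
    -- climbing
    have hclimb : ∀ (m n : ℕ) (x : κ.ord.ToType) (r : Lv κ.ord.ToType Ω), r ≤ q₃ →
        Y.At i T n x r → U x r → ∃ r' ≤ r, ∃ e, Y.At i T (n+m) e r' ∧ U e r' ∧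
          Relation.ReflTransGen (Edge c i U r') x e := by
      intro m
      induction m with
      | zero => intro n x r _ hA hUx; exact ⟨r, le_rfl, x, hA, hUx, .refl⟩
      | succ m ih =>
        intro n x r hr hA hUx
        obtain ⟨r₁, hr₁, δ, hδ, hAδ, hF⟩ := Y.next hT hR n hA hs
        have hUδ := hUs (hr₁.trans hr) hδ hAδ
        obtain ⟨r₂, hr₂, e, hAe, hUe, hreach⟩ := ih (n+1) δ r₁ (hr₁.trans hr) hAδ hUδ
        refine ⟨r₂, hr₂.trans hr₁, e, ?_, hUe, ?_⟩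
        · have : n + (m+1) = n + 1 + m := by ring
          rw [this]; exact hAe
        · refine Relation.ReflTransGen.head ?_ hreach
          obtain ⟨hne, hmem⟩ := hfc hF
          exact ⟨hUm x _ _ (hr₂.trans hr₁) hUx, hUm δ _ _ hr₂ hUδ, hne, fMem_mono hmem hr₂⟩
    -- joining
    have hjoin : ∀ (n : ℕ) (x y : κ.ord.ToType) (r : Lv κ.ord.ToType Ω), r ≤ q₃ →
        Y.At i T n x r → Y.At i T n y r → U x r → U y r →
        ∃ r' ≤ r, Relation.ReflTransGen (Edge c i U r') x y := by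
      intro n x y r hr hx hy hUx hUy
      obtain ⟨r', hr', δ, γ, δ', hδ, hγ, hδ', hAδ, hAγ, hAδ', h1, h2, h3, h4⟩ :=
        Y.join hT hR n hx hy hs
      have hUδ := hUs (hr'.trans hr) hδ hAδ
      have hUδ' := hUs (hr'.trans hr) hδ' hAδ'
      have hUγ := hUs (hr'.trans hr) hγ hAγ
      have hUx' := hUm x _ _ hr' hUx
      have hUy' := hUm y _ _ hr' hUy
      have h1 := hfc h1
      have h2 := hfc h2
      have h3 := hfc h3
      have h4 := hfc h4
      refine ⟨r', hr', ?_⟩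
      refine Relation.ReflTransGen.head (b := δ) ⟨hUx', hUδ, h1⟩ ?_
      refine Relation.ReflTransGen.head (b := γ) (hsymm (hr'.trans hr) _ _ ⟨hUγ, hUδ, h2⟩) ?_
      refine Relation.ReflTransGen.head (b := δ') ⟨hUγ, hUδ', h3⟩ ?_
      exact Relation.ReflTransGen.single (hsymm (hr'.trans hr) _ _ ⟨hUy', hUδ', h4⟩)
    -- the end
    have haU : U a q₃ := hUm a _ _ (hq₃.trans hq'') ⟨haX, haW⟩
    have hbU : U b q₃ := hUm b _ _ (hq₃.trans hq'') ⟨hbX, hbW⟩
    obtain ⟨q₄, hq₄, n, hna⟩ := hXat' haX q₃ (hq₃.trans hq'')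
    obtain ⟨q₅, hq₅, m, hmb⟩ := hXat' hbX q₄ (hq₄.trans (hq₃.trans hq''))
    have hq₅₃ := hq₅.trans hq₄
    obtain ⟨q₆, hq₆, e, hAe, hUe, hae⟩ := hclimb m n a q₅ hq₅₃ (hna.mono hq₅) (hUm a _ _ hq₅₃ haU)
    obtain ⟨q₇, hq₇, e', hAe', hUe', hbe⟩ := hclimb n m b q₆ (hq₆.trans hq₅₃) (hmb.mono hq₆)
      (hUm b _ _ (hq₆.trans hq₅₃) hbU)
    have hq₇₃ : q₇ ≤ q₃ := hq₇.trans (hq₆.trans hq₅₃)
    rw [add_comm m n] at hAe'
    obtain ⟨q₈, hq₈, hee⟩ := hjoin (n+m) e e' q₇ hq₇₃ (hAe.mono hq₇) hAe' (hUm e _ _ hq₇ hUe) hUe'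
    refine ⟨q₈, hq₈.trans (hq₇₃.trans hq₃), ?_⟩
    apply walk_of_reach
    exact ((hEm (hq₈.trans hq₇) hae).trans hee).trans (hEm hq₈ (hsymm' hq₇₃ hbe))

/-- The Lévy collapse `Col(ω₁, <κ)` of a weakly compact cardinal `κ` forces `ℵ₂ →_hc (ℵ₂)²_ω`. -/
theorem levy_forcesHC {κ : Cardinal.{u}} (h : IsWeaklyCompact κ) :
    ForcesHC (Lv κ.ord.ToType (ℵ₁ : Cardinal.{u}).ord.ToType) := by
  have hΩ : #((ℵ₁ : Cardinal.{u}).ord.ToType) = ℵ₁ := by simp
  have hΩκ : #((ℵ₁ : Cardinal.{u}).ord.ToType) < κ := by rw [hΩ]; exact h.aleph_one_lt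
  have hunc : ¬ Countable ((ℵ₁ : Cardinal.{u}).ord.ToType) := by
    rw [← mk_le_aleph0_iff, hΩ, _root_.not_le]
    exact aleph0_lt_aleph_one
  have : Nonempty ((ℵ₁ : Cardinal.{u}).ord.ToType) := by
    rw [← mk_ne_zero_iff, hΩ]
    exact (aleph0_pos.trans aleph0_lt_aleph_one).ne'
  refine ⟨(ℵ₁ : Cardinal.{u}).ord.ToType, κ.ord.ToType, inferInstance, inferInstance,
    inferInstance, inferInstance, fun p => ⟨⟨?_, ?_⟩, ⟨?_, ?_⟩, ?_⟩⟩
  · intro ξ
    apply cardLe_countable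
    rw [← le_aleph0_iff_set_countable, ← lt_aleph_one_iff]
    exact Iio_small ξ
  · exact not_cardLe_nat (fun f hf => ⟨Lv.limP f, fun n => Lv.limP_le hf n⟩) hunc p
  · exact fun ξ => levy_collapses hunc ξ p
  · exact levy_preserves h hΩκ p
  · intro c q _ hc q' hq'
    obtain ⟨r, hr, X, i, h1, h2⟩ := main_hc h hΩκ c q' (fColoring_mono hc hq')
    refine ⟨r, hr, X, fun r' hr' => ⟨r', le_rfl, i, fNot_mono h1 hr', ?_⟩⟩
    exact fun W => fImp_mono (h2 W) hr'

end Pool.Agent.LibHC
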