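import Pool.Agent.LibHC.WC

/-!
# The Lévy collapse `Col(ω₁, <κ)`
-/

namespace Pool.Agent.LibHC

open Cardinal Filter Set

universe u

/-- Conditions: countable partial functions `p` on `K × Ω` with `p (ξ, α) < ξ`. -/
@[ext]
structure Lv (K Ω : Type u) [LinearOrder K] where
  f : K × Ω → Option K
  supp : {d | f d ≠ none}.Countable
  lt : ∀ d x, f d = some x → x < d.1

namespace Lv

variable {K Ω : Type u} [LinearOrder K]

instance : PartialOrder (Lv K Ω) where
  le p q := ∀ d x, q.f d = some x → p.f d = some x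
  le_refl p d x h := h
  le_trans p q r h1 h2 d x h := h1 d x (h2 d x h)
  le_antisymm p q h1 h2 := by
    ext d x
    exact ⟨fun h => h2 d x h, fun h => h1 d x h⟩

theorem le_def {p q : Lv K Ω} : p ≤ q ↔ ∀ d x, q.f d = some x → p.f d = some x := Iff.rfl

instance : Nonempty (Lv K Ω) := ⟨⟨fun _ => none, by simp, by simp⟩⟩

/-- Two conditions are compatible. -/
def Comp (p q : Lv K Ω) : Prop := ∀ d x y, p.f d = some x → q.f d = some y → x = y

/-- The union of `p` and `q` (with priority to `p`). -/
def join (p q : Lv K Ω) : Lv K Ω where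
  f d := (p.f d).or (q.f d)
  supp := by
    refine (p.supp.union q.supp).mono ?_
    intro d hd
    simp only [mem_ofPred_eq, mem_union] at *
    by_contra hcon
    push Not at hcon
    exact hd (by simp [hcon.1, hcon.2])
  lt d x h := by
    rcases hp : p.f d with _ | y
    · rw [hp] at h; exact q.lt d x (by simpa using h)
    · rw [hp] at h; exact p.lt d x (by rw [hp]; simpa using h)

theorem join_le_left (p q : Lv K Ω) : join p q ≤ p := by
  intro d x h
  simp [join, h]

theorem join_le_right {p q : Lv K Ω} (h : Comp p q) : join p q ≤ q := by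
  intro d x hq
  rcases hp : p.f d with _ | y
  · simp [join, hp, hq]
  · simp [join, hp, h d y x hp hq]

theorem comp_of_le {p q r : Lv K Ω} (h1 : r ≤ p) (h2 : r ≤ q) : Comp p q := by
  intro d x y hx hy
  have := h1 d x hx
  have := h2 d y hy
  simp_all

open Classical in
/-- The union of a sequence of conditions (with priority to the first one). -/
noncomputable def limP (g : ℕ → Lv K Ω) : Lv K Ω where
  f d := if h : ∃ n, (g n).f d ≠ none then (g (Nat.find h)).f d else none
  supp := by
    have h1 : (⋃ n, {d | (g n).f d ≠ none}).Countable :=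
      Set.countable_iUnion fun n => (g n).supp
    refine h1.mono ?_
    intro d hd
    simp only [mem_ofPred_eq] at hd
    by_cases h : ∃ n, (g n).f d ≠ none
    · obtain ⟨n, hn⟩ := h
      exact mem_iUnion.2 ⟨n, hn⟩
    · rw [dif_neg h] at hd
      exact absurd rfl hd
  lt d x h := by
    by_cases hh : ∃ n, (g n).f d ≠ none
    · rw [dif_pos hh] at h
      exact (g _).lt d x h
    · rw [dif_neg hh] at h
      cases h

theorem limP_le_zero (g : ℕ → Lv K Ω) : limP g ≤ g 0 := by
  classical
  intro d x h
  have hh : ∃ n, (g n).f d ≠ none := ⟨0, by rw [h]; simp⟩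
  have h0 : Nat.find hh = 0 := by
    rw [Nat.find_eq_zero]; rw [h]; simp
  show (if h : ∃ n, (g n).f d ≠ none then (g (Nat.find h)).f d else none) = _
  rw [dif_pos hh]
  have : (g (Nat.find hh)).f d = (g 0).f d := by rw [h0]
  convert this.trans h

theorem limP_le {g : ℕ → Lv K Ω} (hg : ∀ n, g (n+1) ≤ g n) (n : ℕ) : limP g ≤ g n := by
  classical
  intro d x h
  have hanti : Antitone g := antitone_nat_of_succ_le hg
  have hh : ∃ n, (g n).f d ≠ none := ⟨n, by rw [h]; simp⟩
  show (if h : ∃ n, (g n).f d ≠ none then (g (Nat.find h)).f d else none) = _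
  rw [dif_pos hh]
  have h1 : Nat.find hh ≤ n := Nat.find_min' hh (by rw [h]; simp)
  have h2 := Nat.find_spec hh
  rcases h3 : (g (Nat.find hh)).f d with _ | y
  · exact absurd h3 h2
  · have := hanti h1 d y h3
    rw [h] at this
    have h4 : (g (Nat.find hh)).f d = some x := by rw [h3, this]
    rw [← h3]
    exact h4

theorem limP_some {g : ℕ → Lv K Ω} {d : K × Ω} {x : K} (h : (limP g).f d = some x) :
    ∃ n, (g n).f d = some x := by
  classical
  have h' : (if h : ∃ n, (g n).f d ≠ none then (g (Nat.find h)).f d else none) = some x := h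
  by_cases hh : ∃ n, (g n).f d ≠ none
  · rw [dif_pos hh] at h'
    exact ⟨_, h'⟩
  · rw [dif_neg hh] at h'
    cases h'

end Lv

section pi

variable {κ : Cardinal.{u}} {Ω : Type u}

open Classical in
/-- The limit of a family of conditions along a filter. -/
noncomputable def piP (hκ : ℵ₁ < κ) (F : Filter κ.ord.ToType) [F.NeBot]
    [CardinalInterFilter F κ] (g : κ.ord.ToType → Lv κ.ord.ToType Ω) : Lv κ.ord.ToType Ω where
  f d := if h : ∃ x, ∀ᶠ α in F, (g α).f d = some x then some h.choose else none
  supp := by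
    by_contra hcon
    have h1 : ℵ₁ ≤ #{d | (if h : ∃ x, ∀ᶠ α in F, (g α).f d = some x then some h.choose
        else none : Option κ.ord.ToType) ≠ none} := by
      rw [aleph_one_le_iff, ← not_le, le_aleph0_iff_set_countable]
      exact hcon
    obtain ⟨D, hD, hDc⟩ := le_mk_iff_exists_subset.1 h1
    have h2 : ∀ᶠ α in F, ∀ d : D, (g α).f d.1 ≠ none := by
      refine (eventually_cardinal_forall (c := κ) (by rw [hDc]; exact hκ)).2 ?_
      intro d
      have hd := hD d.2
      simp only [mem_ofPred_eq] at hd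
      by_cases h : ∃ x, ∀ᶠ α in F, (g α).f d.1 = some x
      · filter_upwards [h.choose_spec] with α hα
        rw [hα]; simp
      · rw [dif_neg h] at hd; exact absurd rfl hd
    obtain ⟨α, hα⟩ := h2.exists
    have h3 : D.Countable := (g α).supp.mono (fun d hd => hα ⟨d, hd⟩)
    rw [← le_aleph0_iff_set_countable, ← lt_aleph_one_iff, hDc] at h3
    exact lt_irrefl _ h3
  lt d x h := by
    by_cases hh : ∃ x, ∀ᶠ α in F, (g α).f d = some x
    · rw [dif_pos hh] at h
      obtain ⟨α, hα⟩ := hh.choose_spec.exists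
      rw [← (Option.some.inj h)]
      exact (g α).lt d _ hα
    · rw [dif_neg hh] at h
      cases h

variable {hκ : ℵ₁ < κ} {F : Filter κ.ord.ToType} [F.NeBot]
    [CardinalInterFilter F κ]

theorem piP_some {g : κ.ord.ToType → Lv κ.ord.ToType Ω} {d : κ.ord.ToType × Ω}
    {x : κ.ord.ToType} : (piP hκ F g).f d = some x ↔ ∀ᶠ α in F, (g α).f d = some x := by
  classical
  have hdef : (piP hκ F g).f d = if h : ∃ x, ∀ᶠ α in F, (g α).f d = some x then some h.choose
    else none := rfl
  rw [hdef]
  constructor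
  · intro h
    by_cases hh : ∃ x, ∀ᶠ α in F, (g α).f d = some x
    · rw [dif_pos hh] at h
      have := hh.choose_spec
      rwa [Option.some.inj h] at this
    · rw [dif_neg hh] at h
      cases h
  · intro h
    have hh : ∃ x, ∀ᶠ α in F, (g α).f d = some x := ⟨x, h⟩
    rw [dif_pos hh]
    obtain ⟨α, hα, hα'⟩ := (h.and hh.choose_spec).exists
    rw [hα] at hα'
    exact hα'.symm

/-- the family `g` is decided by `F` -/
def Decd (F : Filter κ.ord.ToType) (g : κ.ord.ToType → Lv κ.ord.ToType Ω) : Prop :=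
  ∀ d x, {α | (g α).f d = some x} ∈ F ∨ {α | (g α).f d = some x}ᶜ ∈ F

omit [F.NeBot] in
theorem Decd.cases {g : κ.ord.ToType → Lv κ.ord.ToType Ω} (h : Decd F g) (d : κ.ord.ToType × Ω) :
    (∀ᶠ α in F, (g α).f d = none) ∨ ∃ x, ∀ᶠ α in F, (g α).f d = some x := by
  by_cases hh : ∃ x, ∀ᶠ α in F, (g α).f d = some x
  · exact Or.inr hh
  · left
    have hh := not_exists.1 hh
    have h1 : ∀ᶠ α in F, ∀ x : Iio d.1, (g α).f d ≠ some x.1 := by
      refine (eventually_cardinal_forall (c := κ) (Iio_small d.1)).2 ?_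
      intro x
      rcases h d x.1 with h | h
      · exact absurd h (hh x.1)
      · exact h
    filter_upwards [h1] with α hα
    rcases h2 : (g α).f d with _ | x
    · rfl
    · exact absurd h2 (hα ⟨x, (g α).lt d x h2⟩)

theorem piP_mono {g g' : κ.ord.ToType → Lv κ.ord.ToType Ω} (h : ∀ᶠ α in F, g α ≤ g' α) :
    piP hκ F g ≤ piP hκ F g' := by
  intro d x hx
  rw [piP_some] at *
  filter_upwards [hx, h] with α h1 h2
  exact h2 d x h1

theorem piP_compat {g : κ.ord.ToType → Lv κ.ord.ToType Ω} (h : Decd F g)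
    (hc : CountableInterFilter F) {q : Lv κ.ord.ToType Ω}
    (hq : q ≤ piP hκ F g) : ∀ᶠ α in F, Lv.Comp (g α) q := by
  have h1 : ∀ᶠ α in F, ∀ d ∈ {d | q.f d ≠ none}, ∀ x y, (g α).f d = some x → q.f d = some y →
      x = y := by
    rw [eventually_countable_ball q.supp]
    intro d _
    rcases h.cases d with h2 | ⟨z, h2⟩
    · filter_upwards [h2] with α hα x y hx
      rw [hα] at hx; cases hx
    · have h3 := hq d z (piP_some.2 h2)
      filter_upwards [h2] with α hα x y hx hy
      rw [hα] at hx
      rw [h3] at hy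
      rw [← Option.some.inj hx, Option.some.inj hy]
  filter_upwards [h1] with α hα d x y hx hy
  exact hα d (by simp [hy]) x y hx hy

end pi

/-- The Lévy collapse satisfies the `κ`-chain condition. -/
theorem levy_cc {κ : Cardinal.{u}} (h : IsWeaklyCompact κ) {Ω : Type u} (hΩ : #Ω ≤ κ)
    (g : κ.ord.ToType → Lv κ.ord.ToType Ω) : ∃ a b, a ≠ b ∧ Lv.Comp (g a) (g b) := by
  have hc1 : ℵ₀ ≤ κ := h.1.le
  obtain ⟨F, hne, hF, hsm, hdec⟩ := exists_filter h (I := (κ.ord.ToType × Ω) × κ.ord.ToType) (by
    simp only [mk_prod, lift_id, mk_ord_toType]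
    calc κ * #Ω * κ ≤ κ * κ * κ := by gcongr
      _ = κ := by rw [mul_eq_self hc1, mul_eq_self hc1])
    (fun i => {α | (g α).f i.1 = some i.2})
  have hcc : CountableInterFilter F := CardinalInterFilter.toCountableInterFilter F h.1
  have hD : Decd F g := fun d x => hdec (d, x)
  set p := piP h.aleph_one_lt F g with hp
  -- almost all g a extend p
  have h1 : ∀ᶠ a in F, g a ≤ p := by
    have h2 : ∀ᶠ a in F, ∀ d ∈ {d | p.f d ≠ none}, ∀ x, p.f d = some x → (g a).f d = some x := by
      rw [eventually_countable_ball p.supp]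
      intro d hd
      rcases hx : p.f d with _ | x
      · exact absurd hx hd
      · rw [hp, piP_some] at hx
        filter_upwards [hx] with a ha y hy
        rw [ha, ← hy]
    filter_upwards [h2] with a ha d x hx
    exact ha d (by simp [hx]) x hx
  obtain ⟨a, ha⟩ := h1.exists
  have h2 := piP_compat hD hcc ha
  have h3 : ({a} : Set κ.ord.ToType)ᶜ ∈ F := hsm _ (by
    rw [mk_singleton]; exact one_lt_aleph0.trans h.1)
  obtain ⟨b, hb, hb'⟩ := (h2.and h3).exists
  exact ⟨b, a, hb', hb⟩

end Pool.Agent.LibHC
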