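import Pool.Agent.LibHC.Defs

/-!
# Consequences of `κ → (κ)²₂`
-/

namespace Pool.Agent.LibHC

open Cardinal Filter Set

universe u

variable {κ : Cardinal.{u}}

theorem Iio_small (a : κ.ord.ToType) : #(Iio a) < κ := by
  simpa using mk_Iio_lt a (by simp)

theorem Iic_small (hκ : ℵ₀ ≤ κ) (a : κ.ord.ToType) : #(Iic a) < κ := by
  have h1 : Iic a = insert a (Iio a) := by
    ext x; simp [le_iff_eq_or_lt]
  rw [h1]
  refine (mk_insert_le).trans_lt ?_
  exact add_lt_of_lt hκ (Iio_small a) (one_lt_aleph0.trans_le hκ)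

theorem IsWeaklyCompact.isRegular (h : IsWeaklyCompact κ) : κ.IsRegular := by
  refine ⟨h.1.le, ?_⟩
  by_contra hcof
  push Not at hcof
  obtain ⟨s, hs, hsc⟩ := Order.exists_cof_eq (κ.ord.ToType)
  rw [Ordinal.cof_toType] at hsc
  choose f hf hf' using hs
  classical
  obtain ⟨H, i, hH, hHi⟩ := h.2 κ.ord.ToType (by simp) (fun a b => decide (f a = f b)) (by
    intro a b; simp [eq_comm])
  cases i
  · have hinj : Set.InjOn f H := by
      intro a ha b hb hab
      by_contra hne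
      have := hHi a ha b hb hne
      simp [hab] at this
    have h1 : #H ≤ #s := by
      have : #H = #(f '' H) := (mk_image_eq_of_injOn f H hinj).symm
      rw [this]
      apply mk_le_mk_of_subset
      rintro _ ⟨a, -, rfl⟩
      exact hf a
    rw [hH, hsc] at h1
    exact absurd hcof (not_lt.2 h1)
  · have hne : H.Nonempty := by
      rw [Set.nonempty_iff_ne_empty]
      rintro rfl
      rw [mk_eq_zero] at hH
      exact absurd h.1 (by rw [← hH]; simp)
    obtain ⟨a₀, ha₀⟩ := hne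
    have h1 : H ⊆ Iic (f a₀) := by
      intro b hb
      by_cases hab : b = a₀
      · subst hab; exact hf' b
      · have := hHi b hb a₀ ha₀ hab
        rw [decide_eq_true_iff] at this
        rw [← this]; exact hf' b
    have := (mk_le_mk_of_subset h1).trans_lt (Iic_small h.1.le (f a₀))
    rw [hH] at this
    exact lt_irrefl _ this

theorem exists_above (h : κ.IsRegular) {ι : Type u} (hι : #ι < κ) (g : ι → κ.ord.ToType)
    {H : Set κ.ord.ToType} (hH : #H = κ) : ∃ a ∈ H, ∀ i, g i < a := by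
  by_contra hcon
  push Not at hcon
  have h1 : H ⊆ ⋃ i, Iic (g i) := by
    intro a ha
    obtain ⟨i, hi⟩ := hcon a ha
    exact mem_iUnion.2 ⟨i, hi⟩
  have h2 : #(⋃ i, Iic (g i)) < κ := by
    rw [card_iUnion_lt_iff_forall_of_isRegular h hι]
    exact fun i => Iic_small h.aleph0_le _
  have := (mk_le_mk_of_subset h1).trans_lt h2
  rw [hH] at this
  exact lt_irrefl _ this

/-- The filter of tails of `H`. -/
def tailF (H : Set κ.ord.ToType) (hne : H.Nonempty) : Filter κ.ord.ToType where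
  sets := {S | ∃ a ∈ H, ∀ b ∈ H, a ≤ b → b ∈ S}
  univ_sets := ⟨hne.some, hne.some_mem, fun _ _ _ => mem_univ _⟩
  sets_of_superset := by
    rintro x y ⟨a, ha, h⟩ hxy
    exact ⟨a, ha, fun b hb hab => hxy (h b hb hab)⟩
  inter_sets := by
    rintro x y ⟨a, ha, h⟩ ⟨a', ha', h'⟩
    rcases le_total a a' with hle | hle
    · exact ⟨a', ha', fun b hb hab => ⟨h b hb (hle.trans hab), h' b hb hab⟩⟩
    · exact ⟨a, ha, fun b hb hab => ⟨h b hb hab, h' b hb (hle.trans hab)⟩⟩

theorem mem_tailF {H : Set κ.ord.ToType} {hne : H.Nonempty} {S : Set κ.ord.ToType} :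
    S ∈ tailF H hne ↔ ∃ a ∈ H, ∀ b ∈ H, a ≤ b → b ∈ S := Iff.rfl

theorem exists_filter_aux (h : IsWeaklyCompact κ) (A : κ.ord.ToType → Set κ.ord.ToType) :
    ∃ F : Filter κ.ord.ToType, F.NeBot ∧ CardinalInterFilter F κ ∧
      (∀ S : Set κ.ord.ToType, #S < κ → Sᶜ ∈ F) ∧ ∀ i, A i ∈ F ∨ (A i)ᶜ ∈ F := by
  classical
  have hreg := h.isRegular
  -- lexicographic comparison
  let lexle : κ.ord.ToType → κ.ord.ToType → Prop := fun a b =>
    ∀ ξ, (∀ η < ξ, (a ∈ A η ↔ b ∈ A η)) → a ∈ A ξ → b ∈ A ξ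
  let c : κ.ord.ToType → κ.ord.ToType → Bool := fun a b =>
    if a < b then decide (lexle a b) else if b < a then decide (lexle b a) else true
  have hc : ∀ a b, c a b = c b a := by
    intro a b
    rcases lt_trichotomy a b with hab | hab | hab
    · simp [c, hab, not_lt.2 hab.le]
    · subst hab; rfl
    · simp [c, hab, not_lt.2 hab.le]
  obtain ⟨H, i, hH, hHi⟩ := h.2 κ.ord.ToType (by simp) c hc
  have hne : H.Nonempty := by
    rw [Set.nonempty_iff_ne_empty]
    rintro rfl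
    rw [mk_eq_zero] at hH
    exact absurd h.1 (by rw [← hH]; simp)
  -- for a < b in H
  have hlt : ∀ a ∈ H, ∀ b ∈ H, a < b → (i = true ↔ lexle a b) := by
    intro a ha b hb hab
    have := hHi a ha b hb hab.ne
    simp only [c, hab, if_true] at this
    rw [← this, decide_eq_true_iff]
  have hlex_total : ∀ a b, ¬ lexle a b → lexle b a := by
    intro a b hab ξ hξ hb
    by_contra ha
    apply hab
    intro ζ hζ ha'
    by_contra hb'
    -- ζ is the first difference (a in, b out); ξ is the first difference (b in, a out)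
    rcases lt_trichotomy ζ ξ with hlt | heq | hgt
    · exact hb' ((hξ ζ hlt).2 ha')
    · subst heq; exact ha ha'
    · exact ha ((hζ ξ hgt).2 hb)
  have hreg_ne : ∀ ξ, ∃ a ∈ H, ∀ b ∈ H, a ≤ b → (b ∈ A ξ ↔ a ∈ A ξ) := by
    intro ξ
    induction ξ using WellFoundedLT.induction with
    | ind ξ ih =>
      choose g hg hg' using ih
      obtain ⟨a₀, ha₀, hga⟩ := exists_above hreg (ι := Iio ξ) (Iio_small ξ) (fun η => g η.1 η.2) hH
      have hagree : ∀ b ∈ H, ∀ b' ∈ H, a₀ ≤ b → a₀ ≤ b' → ∀ η < ξ, (b ∈ A η ↔ b' ∈ A η) := by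
        intro b hb b' hb' hab hab' η hη
        rw [hg' η hη b hb ((hga ⟨η, hη⟩).le.trans hab), hg' η hη b' hb' ((hga ⟨η, hη⟩).le.trans hab')]
      cases i with
      | true =>
        -- monotone : in A ξ is preserved
        have hmono : ∀ b ∈ H, ∀ b' ∈ H, a₀ ≤ b → b < b' → b ∈ A ξ → b' ∈ A ξ := by
          intro b hb b' hb' hab hbb hbA
          exact (hlt b hb b' hb' hbb).1 rfl ξ (hagree b hb b' hb' hab (hab.trans hbb.le)) hbA
        by_cases hex : ∃ b ∈ H, a₀ ≤ b ∧ b ∈ A ξ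
        · obtain ⟨b, hb, hab, hbA⟩ := hex
          refine ⟨b, hb, fun b' hb' hbb => ⟨fun _ => hbA, fun _ => ?_⟩⟩
          rcases hbb.eq_or_lt with heq | hlt'
          · rw [← heq]; exact hbA
          · exact hmono b hb b' hb' hab hlt' hbA
        · push Not at hex
          exact ⟨a₀, ha₀, fun b hb hab => iff_of_false (hex b hb hab) (hex a₀ ha₀ le_rfl)⟩
      | false =>
        have hmono : ∀ b ∈ H, ∀ b' ∈ H, a₀ ≤ b → b < b' → b' ∈ A ξ → b ∈ A ξ := by
          intro b hb b' hb' hab hbb hbA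
          have h1 : ¬ lexle b b' := fun hl => by
            have := (hlt b hb b' hb' hbb).2 hl
            cases this
          exact hlex_total b b' h1 ξ (hagree b' hb' b hb (hab.trans hbb.le) hab) hbA
        by_cases hex : ∃ b ∈ H, a₀ ≤ b ∧ b ∉ A ξ
        · obtain ⟨b, hb, hab, hbA⟩ := hex
          refine ⟨b, hb, fun b' hb' hbb => iff_of_false ?_ hbA⟩
          rcases hbb.eq_or_lt with heq | hlt'
          · rw [← heq]; exact hbA
          · exact fun hb'A => hbA (hmono b hb b' hb' hab hlt' hb'A)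
        · push Not at hex
          exact ⟨a₀, ha₀, fun b hb hab => iff_of_true (hex b hb hab) (hex a₀ ha₀ le_rfl)⟩
  refine ⟨tailF H hne, ?_, ?_, ?_, ?_⟩
  · refine ⟨fun hbot => ?_⟩
    have : (∅ : Set κ.ord.ToType) ∈ tailF H hne := by rw [hbot]; trivial
    obtain ⟨a, ha, h'⟩ := mem_tailF.1 this
    exact h' a ha le_rfl
  · refine ⟨fun S hS hSF => ?_⟩
    choose g hg hg' using fun s : S => mem_tailF.1 (hSF s.1 s.2)
    obtain ⟨a₀, ha₀, hga⟩ := exists_above hreg hS g hH
    refine mem_tailF.2 ⟨a₀, ha₀, fun b hb hab => ?_⟩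
    intro s hs
    exact hg' ⟨s, hs⟩ b hb ((hga ⟨s, hs⟩).le.trans hab)
  · intro S hS
    obtain ⟨a₀, ha₀, hga⟩ := exists_above hreg hS (fun s : S => s.1) hH
    refine mem_tailF.2 ⟨a₀, ha₀, fun b hb hab hbS => ?_⟩
    exact absurd (hga ⟨b, hbS⟩) (not_lt.2 hab)
  · intro ξ
    obtain ⟨a, ha, h'⟩ := hreg_ne ξ
    by_cases haA : a ∈ A ξ
    · exact Or.inl (mem_tailF.2 ⟨a, ha, fun b hb hab => (h' b hb hab).2 haA⟩)
    · exact Or.inr (mem_tailF.2 ⟨a, ha, fun b hb hab hbA => haA ((h' b hb hab).1 hbA)⟩)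

/-- A `κ`-complete filter deciding `κ` many given sets. -/
theorem exists_filter (h : IsWeaklyCompact κ) {I : Type u} (hI : #I ≤ κ)
    (A : I → Set κ.ord.ToType) :
    ∃ F : Filter κ.ord.ToType, F.NeBot ∧ CardinalInterFilter F κ ∧
      (∀ S : Set κ.ord.ToType, #S < κ → Sᶜ ∈ F) ∧ ∀ i, A i ∈ F ∨ (A i)ᶜ ∈ F := by
  classical
  have h1 : #I ≤ #(κ.ord.ToType) := by simpa using hI
  obtain ⟨f⟩ := h1
  obtain ⟨F, h1, h2, h3, h4⟩ := exists_filter_aux h
    (fun ξ => if hξ : ∃ i, f i = ξ then A hξ.choose else ∅)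
  refine ⟨F, h1, h2, h3, fun i => ?_⟩
  have hξ : ∃ j, f j = f i := ⟨i, rfl⟩
  have := h4 (f i)
  rw [dif_pos hξ, f.injective hξ.choose_spec] at this
  exact this

theorem IsWeaklyCompact.isStrongLimit (h : IsWeaklyCompact κ) : κ.IsStrongLimit := by
  refine ⟨(aleph0_pos.trans h.1).ne', fun μ hμ => ?_⟩
  by_contra hcon
  push Not at hcon
  obtain ⟨Λ, rfl⟩ : ∃ Λ : Type u, #Λ = μ := ⟨μ.out, by simp⟩
  have h1 : #(κ.ord.ToType) ≤ #(Set Λ) := by simpa using hcon
  obtain ⟨f⟩ := h1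
  obtain ⟨F, hne, hF, hsm, hdec⟩ := exists_filter h hμ.le (fun l : Λ => {a | l ∈ f a})
  -- almost all a have the same f a
  have h2 : ∀ l : Λ, ∃ b : Prop, ∀ᶠ a in F, (l ∈ f a ↔ b) := by
    intro l
    rcases hdec l with hl | hl
    · exact ⟨True, by filter_upwards [hl] with a ha using iff_true_intro ha⟩
    · exact ⟨False, by filter_upwards [hl] with a ha using iff_false_intro ha⟩
  choose b hb using h2
  have h3 : ∀ᶠ a in F, ∀ l, (l ∈ f a ↔ b l) := (eventually_cardinal_forall hμ).2 hb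
  obtain ⟨a, ha⟩ := h3.exists
  have h4 : ({a} : Set κ.ord.ToType)ᶜ ∈ F := hsm _ (by
    rw [mk_singleton]; exact one_lt_aleph0.trans h.1)
  obtain ⟨a', ha', hne'⟩ := (h3.and h4).exists
  apply hne'
  apply f.injective
  ext l
  rw [ha' l, ha l]

theorem IsWeaklyCompact.power_aleph0 (h : IsWeaklyCompact κ) : κ ^ ℵ₀ ≤ κ := by
  have h1 := mk_subset_mk_lt_cof (α := ULift.{u} ℕ × κ.ord.ToType) (by
    have : #(ULift.{u} ℕ × κ.ord.ToType) = κ := by
      rw [mk_prod]
      simpa using aleph0_mul_eq h.1.le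
    rw [this]; exact h.isStrongLimit.isStrongPrelimit)
  have h2 : #(ULift.{u} ℕ × κ.ord.ToType) = κ := by
    rw [mk_prod]
    simpa using aleph0_mul_eq h.1.le
  rw [h2, h.isRegular.cof_ord] at h1
  have h3 : #(ULift.{u} ℕ → κ.ord.ToType) = κ ^ ℵ₀ := by simp
  have h4 : #(ULift.{u} ℕ → κ.ord.ToType) ≤
      #{ s : Set (ULift.{u} ℕ × κ.ord.ToType) // #s < κ } := by
    refine mk_le_of_injective (f := fun g => ⟨Set.range (fun n => (n, g n)), ?_⟩) ?_
    · have : (Set.range (fun n => (n, g n))).Countable := Set.countable_range _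
      exact (this.le_aleph0).trans_lt h.1
    · intro g g' hgg
      have hgg' := Subtype.mk.inj hgg
      ext1 n
      have : (n, g n) ∈ Set.range (fun n => (n, g' n)) := by
        rw [← hgg']; exact ⟨n, rfl⟩
      obtain ⟨m, hm⟩ := this
      simp only [Prod.mk.injEq] at hm
      rw [← hm.2, hm.1]
  rw [h3, h1] at h4
  exact h4

theorem IsWeaklyCompact.aleph_one_lt (h : IsWeaklyCompact κ) : ℵ₁ < κ := by
  have : (2 : Cardinal.{u}) ^ ℵ₀ < κ := h.isStrongLimit.isStrongPrelimit h.1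
  exact aleph_one_le_continuum.trans_lt this

end Pool.Agent.LibHC
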